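import Pool.Agent.P.MP_5e916a_al.A.Iface

/-! Step CD of the codegree project. -/

namespace Pool.Agent.P.MP_5e916a_al

open Subgroup
open scoped commutatorElement

namespace CdA

variable {T : Type} [Group T]

theorem card_mul_rel {X Y : Subgroup T} (h : X ≤ Y) :
    Nat.card X * X.relIndex Y = Nat.card Y := by
  rw [← relIndex_bot_left, ← relIndex_bot_left]
  exact relIndex_mul_relIndex ⊥ X Y bot_le h

theorem card_prod_le [Finite T] (X Y : Subgroup T) :
    Nat.card X * Nat.card Y ≤ Nat.card (X ⊓ Y : Subgroup T) * Nat.card (X ⊔ Y : Subgroup T) := by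
  have h1 : Nat.card (X ⊓ Y : Subgroup T) * Y.relIndex X = Nat.card X := by
    rw [← inf_relIndex_left]
    exact card_mul_rel inf_le_left
  have h2 : Nat.card Y * Y.relIndex (X ⊔ Y) = Nat.card (X ⊔ Y : Subgroup T) :=
    card_mul_rel le_sup_right
  have h3 : Y.relIndex (X ⊔ Y) ≠ 0 := by
    intro h0
    rw [h0, mul_zero] at h2
    exact Nat.card_pos.ne' h2.symm
  have h4 : Y.relIndex X ≤ Y.relIndex (X ⊔ Y) := relIndex_le_of_le_right le_sup_left h3
  rw [← h1, ← h2]
  calc Nat.card (X ⊓ Y : Subgroup T) * Y.relIndex X * Nat.card Y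
      = Nat.card (X ⊓ Y : Subgroup T) * (Nat.card Y * Y.relIndex X) := by ring
    _ ≤ _ := Nat.mul_le_mul_left _ (Nat.mul_le_mul_left _ h4)

/-- The centralizer inside `F`. -/
def cz (F X : Subgroup T) : Subgroup T := centralizer (X : Set T) ⊓ F

/-- The measure. -/
noncomputable def ms (F X : Subgroup T) : ℕ := Nat.card X * Nat.card (cz F X)

theorem mem_cz {F X : Subgroup T} {g : T} : g ∈ cz F X ↔ (∀ h ∈ X, h * g = g * h) ∧ g ∈ F :=
  Iff.rfl

theorem cz_anti {F X Y : Subgroup T} (h : X ≤ Y) : cz F Y ≤ cz F X :=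
  fun _ hg => ⟨fun a ha => hg.1 a (h ha), hg.2⟩

theorem cz_sup (F X Y : Subgroup T) : cz F X ⊓ cz F Y ≤ cz F (X ⊔ Y) := by
  intro g hg
  refine ⟨?_, hg.1.2⟩
  have : X ⊔ Y ≤ centralizer ({g} : Set T) :=
    sup_le (fun a ha => mem_centralizer_singleton_iff.2 (hg.1.1 a ha))
      (fun a ha => mem_centralizer_singleton_iff.2 (hg.2.1 a ha))
  intro a ha
  exact mem_centralizer_singleton_iff.1 (this ha)

theorem ms_mul_le [Finite T] (F X Y : Subgroup T) :
    ms F X * ms F Y ≤ ms F (X ⊓ Y) * ms F (X ⊔ Y) := by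
  have h1 := card_prod_le X Y
  have h2 := card_prod_le (cz F X) (cz F Y)
  have h3 : Nat.card (cz F X ⊓ cz F Y : Subgroup T) ≤ Nat.card (cz F (X ⊔ Y)) :=
    card_le_of_le (cz_sup F X Y)
  have h4 : Nat.card (cz F X ⊔ cz F Y : Subgroup T) ≤ Nat.card (cz F (X ⊓ Y)) :=
    card_le_of_le (sup_le (cz_anti inf_le_left) (cz_anti inf_le_right))
  have h5 := h2.trans (Nat.mul_le_mul h3 h4)
  unfold ms
  calc Nat.card X * Nat.card (cz F X) * (Nat.card Y * Nat.card (cz F Y))
      = (Nat.card X * Nat.card Y) * (Nat.card (cz F X) * Nat.card (cz F Y)) := by ring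
    _ ≤ _ := Nat.mul_le_mul h1 h5
    _ = _ := by ring

theorem ms_pos [Finite T] (F X : Subgroup T) : 0 < ms F X :=
  Nat.mul_pos Nat.card_pos Nat.card_pos

/-- Maximisers of the measure. -/
def Mx (F X : Subgroup T) : Prop := X ≤ F ∧ ∀ Y ≤ F, ms F Y ≤ ms F X

theorem Mx.inf [Finite T] {F X Y : Subgroup T} (hX : Mx F X) (hY : Mx F Y) : Mx F (X ⊓ Y) := by
  refine ⟨inf_le_left.trans hX.1, fun Z hZ => (hX.2 Z hZ).trans ?_⟩
  have h1 := (ms_mul_le F X Y).trans
    (Nat.mul_le_mul_left _ (hY.2 (X ⊔ Y) (sup_le hX.1 hY.1)))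
  exact Nat.le_of_mul_le_mul_right h1 (ms_pos F Y)

theorem Mx.cz [Finite T] {F X : Subgroup T} (hX : Mx F X) : Mx F (cz F X) := by
  refine ⟨inf_le_right, fun Z hZ => (hX.2 Z hZ).trans ?_⟩
  have h1 : X ≤ CdA.cz F (CdA.cz F X) := fun a ha => ⟨fun g hg => (hg.1 a ha).symm, hX.1 ha⟩
  unfold ms
  rw [mul_comm]
  exact Nat.mul_le_mul_left _ (card_le_of_le h1)

theorem Mx.conj [Finite T] {F X : Subgroup T} (hF : F.Normal) (hX : Mx F X) (g : T) :
    Mx F (X.map (MulAut.conj g).toMonoidHom) := by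
  have hinj : Function.Injective (MulAut.conj g).toMonoidHom := (MulAut.conj g).injective
  refine ⟨?_, fun Z hZ => (hX.2 Z hZ).trans ?_⟩
  · rintro _ ⟨a, ha, rfl⟩
    exact hF.conj_mem a (hX.1 ha) g
  · have h1 : (CdA.cz F X).map (MulAut.conj g).toMonoidHom ≤
        CdA.cz F (X.map (MulAut.conj g).toMonoidHom) := by
      rintro _ ⟨a, ha, rfl⟩
      refine ⟨?_, hF.conj_mem a ha.2 g⟩
      rintro _ ⟨b, hb, rfl⟩
      rw [← map_mul, ← map_mul, ha.1 b hb]
    have h2 := card_le_of_le h1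
    rw [card_map_of_injective hinj] at h2
    unfold ms
    rw [card_map_of_injective hinj]
    exact Nat.mul_le_mul_left _ h2

end CdA

open CdA in
theorem p_CD :
    S_CD := by
  intro T _ _ F A hF hA hc
  have hne : ∃ X, Mx F X := by
    obtain ⟨X, hX, h⟩ := Set.exists_max_image {X : Subgroup T | X ≤ F} (ms F) (Set.toFinite _)
      ⟨F, le_refl F⟩
    exact ⟨X, hX, h⟩
  obtain ⟨B, hB, hmin⟩ := Set.exists_min_image {X : Subgroup T | Mx F X}
    (fun X => Nat.card X) (Set.toFinite _) hne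
  have hle : ∀ Y, Mx F Y → B ≤ Y := by
    intro Y hY
    have := eq_of_le_of_card_ge (inf_le_left : B ⊓ Y ≤ B) (hmin _ (Mx.inf hB hY))
    rw [← this]
    exact inf_le_right
  refine ⟨B, ⟨fun n hn g => ?_⟩, hB.1, fun a ha b hb => (hle _ (Mx.cz hB) hb).1 a ha, ?_⟩
  · obtain ⟨a, ha, h⟩ := hle _ (Mx.conj hF hB g⁻¹) hn
    have h' : g⁻¹ * a * g⁻¹⁻¹ = n := h
    have : g * n * g⁻¹ = a := by rw [← h']; group
    rw [this]
    exact ha
  · have h1 : Nat.card A * Nat.card A ≤ ms F A :=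
      Nat.mul_le_mul_left _ (card_le_of_le fun a ha => ⟨fun b hb => hc b hb a ha, hA ha⟩)
    have h2 : ms F B ≤ Nat.card B * Nat.card F :=
      Nat.mul_le_mul_left _ (card_le_of_le inf_le_right)
    have h3 := (h1.trans (hB.2 A hA)).trans h2
    have h4 := card_mul_rel hA
    have h5 := card_mul_rel hB.1
    have hp : 0 < Nat.card A * Nat.card A := Nat.mul_pos Nat.card_pos Nat.card_pos
    refine Nat.le_of_mul_le_mul_left ?_ hp
    calc Nat.card A * Nat.card A * B.relIndex F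
        ≤ Nat.card B * Nat.card F * B.relIndex F := Nat.mul_le_mul_right _ h3
      _ = (Nat.card B * B.relIndex F) * Nat.card F := by ring
      _ = Nat.card F * Nat.card F := by rw [h5]
      _ = _ := by rw [← h4]; ring

end Pool.Agent.P.MP_5e916a_al
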