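import Pool.Agent.P.MP_5e916a_al.A.Iface

/-! Step CNT of the codegree project. -/

namespace Pool.Agent.P.MP_5e916a_al

open Subgroup
open scoped commutatorElement

namespace CntA

open Finset

/-- The scales. -/
def a (j : ℕ) : ℝ := 2 ^ (2 ^ j)

theorem a_succ (j : ℕ) : a (j + 1) = a j ^ 2 := by
  unfold a
  rw [pow_succ, pow_mul]

theorem two_le_a (j : ℕ) : 2 ≤ a j := by
  unfold a
  exact le_self_pow₀ (by norm_num) (by positivity)

theorem a_mono {i j : ℕ} (h : i ≤ j) : a i ≤ a j := by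
  unfold a
  exact pow_le_pow_right₀ (by norm_num) (Nat.pow_le_pow_right (by norm_num) h)

theorem exists_scale (x : ℝ) (hx : 2 ≤ x) : ∃ j, a j ≤ x ∧ x < a (j + 1) := by
  classical
  have hex : ∃ j, x < a (j + 1) := by
    obtain ⟨n, hn⟩ := pow_unbounded_of_one_lt x (by norm_num : (1 : ℝ) < 2)
    refine ⟨n, hn.trans_le ?_⟩
    unfold a
    refine pow_le_pow_right₀ (by norm_num) ?_
    have := Nat.lt_two_pow_self (n := n + 1)
    omega
  refine ⟨Nat.find hex, ?_, Nat.find_spec hex⟩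
  rcases Nat.eq_zero_or_pos (Nat.find hex) with h0 | h0
  · rw [h0]
    simpa [a] using hx
  · have h1 := Nat.find_min hex (m := Nat.find hex - 1) (by omega)
    rw [show Nat.find hex - 1 + 1 = Nat.find hex by omega] at h1
    exact not_lt.1 h1

theorem card_le_of_gap (S : Finset ℕ) (g : ℕ) (h : ∀ i ∈ S, ∀ j ∈ S, ¬ i + g ≤ j) :
    S.card ≤ g := by
  rcases S.eq_empty_or_nonempty with rfl | hne
  · simp
  have hsub : S ⊆ Ico (S.min' hne) (S.min' hne + g) := by
    intro j hj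
    rw [mem_Ico]
    exact ⟨S.min'_le j hj, not_le.1 (h _ (S.min'_mem hne) j hj)⟩
  simpa using card_le_card hsub

theorem fiber (c d : ℕ) (μ : ℕ → ℝ) (X : Finset ℝ) (hc : 0 < c)
    (hmono : ∀ i j, i ≤ j → j < d → μ i ≤ μ j)
    (hv : ∀ i < d, ∃ v ∈ X, 0 < v ∧ μ i ≤ v ^ 2 ∧ v ≤ μ i)
    (hstep : ∀ i r : ℕ, i + 2 < d →
      (X.filter fun v => 0 < v ∧ μ i ≤ v ^ 2 ∧ v ≤ μ (i + 2)).card ≤ r →
      μ i ^ (c * (32 * r + 1)) * μ (i + 2) ≤ μ (i + 2) ^ (c * (32 * r + 1))) (j : ℕ) :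
    ((range d).filter fun i => a j ≤ μ i ∧ μ i < a (j + 1)).card ≤
      66 * c * (X.filter fun v => 0 < v ∧ a j ≤ v ^ 2 ∧ v < a (j + 1)).card := by
  set r := (X.filter fun v => 0 < v ∧ a j ≤ v ^ 2 ∧ v < a (j + 1)).card with hr
  set E := c * (32 * r + 1) with hE
  have hEpos : 0 < E := by positivity
  have ha := two_le_a j
  rcases ((range d).filter fun i => a j ≤ μ i ∧ μ i < a (j + 1)).eq_empty_or_nonempty with
    h0 | ⟨i1, hi1⟩
  · rw [h0]
    simp
  have hr1 : 1 ≤ r := by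
    obtain ⟨h1, h2, h3⟩ := mem_filter.1 hi1
    obtain ⟨v, hvX, v0, v1, v2⟩ := hv i1 (mem_range.1 h1)
    exact card_pos.2 ⟨v, mem_filter.2 ⟨hvX, v0, h2.trans v1, v2.trans_lt h3⟩⟩
  have hgap : ((range d).filter fun i => a j ≤ μ i ∧ μ i < a (j + 1)).card ≤ 2 * E := by
    refine card_le_of_gap _ _ ?_
    intro i hi k hk hik
    obtain ⟨h1, h2, -⟩ := mem_filter.1 hi
    obtain ⟨h4, -, h6⟩ := mem_filter.1 hk
    have hkd := mem_range.1 h4
    have key : ∀ t, i + 2 * t ≤ k → a j ^ E * a j ^ t ≤ μ (i + 2 * t) ^ E := by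
      intro t
      induction t with
      | zero =>
        intro _
        simpa using pow_le_pow_left₀ (by linarith) h2 E
      | succ t ih =>
        intro ht
        have e1 : i + 2 * (t + 1) = i + 2 * t + 2 := by ring
        have i1 := ih (by omega)
        have l1 : a j ≤ μ (i + 2 * t) := h2.trans (hmono _ _ (by omega) (by omega))
        have l2 : a j ≤ μ (i + 2 * t + 2) := h2.trans (hmono _ _ (by omega) (by omega))
        have l3 : μ (i + 2 * t + 2) < a (j + 1) :=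
          (hmono _ _ (by omega) hkd).trans_lt h6
        have hs := hstep (i + 2 * t) r (by omega) (by
          refine card_le_card ?_
          intro v hv'
          obtain ⟨b1, b2, b3, b4⟩ := mem_filter.1 hv'
          exact mem_filter.2 ⟨b1, b2, l1.trans b3, b4.trans_lt l3⟩)
        rw [e1]
        refine le_trans ?_ hs
        rw [pow_succ, ← mul_assoc]
        have p1 : 0 ≤ μ (i + 2 * t) ^ E := pow_nonneg (by linarith) _
        exact mul_le_mul i1 l2 (by linarith) p1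
    have k1 := key E hik
    have l2 : a j ≤ μ (i + 2 * E) := h2.trans (hmono _ _ (by omega) (by omega))
    have l3 : μ (i + 2 * E) < a (j + 1) := (hmono _ _ hik hkd).trans_lt h6
    have k2 : μ (i + 2 * E) ^ E < a (j + 1) ^ E :=
      pow_lt_pow_left₀ l3 (by linarith) hEpos.ne'
    have e3 : a (j + 1) ^ E = a j ^ E * a j ^ E := by
      rw [a_succ, ← pow_mul, two_mul, pow_add]
    rw [e3] at k2
    exact absurd (k1.trans_lt k2) (lt_irrefl _)
  refine hgap.trans ?_
  rw [hE]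
  nlinarith [Nat.mul_le_mul_left c hr1]

theorem two_scales (v : ℝ) (T : Finset ℕ) :
    (T.filter fun j => 0 < v ∧ a j ≤ v ^ 2 ∧ v < a (j + 1)).card ≤ 2 := by
  refine card_le_of_gap _ _ ?_
  intro i hi k hk hik
  obtain ⟨-, h0, -, h2⟩ := mem_filter.1 hi
  obtain ⟨-, -, h3, -⟩ := mem_filter.1 hk
  have h4 : v ^ 2 < a (i + 1) ^ 2 := pow_lt_pow_left₀ h2 h0.le (by norm_num)
  rw [← a_succ] at h4
  have h5 : a (i + 1 + 1) ≤ a k := a_mono hik
  linarith

end CntA

open CntA Finset in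
theorem p_CNT :
    S_CNT := by
  classical
  intro c d μ X hc h2 hmono hv hstep
  have hex : ∀ i, ∃ j, i < d → a j ≤ μ i ∧ μ i < a (j + 1) := by
    intro i
    by_cases hi : i < d
    · obtain ⟨j, hj⟩ := exists_scale (μ i) (h2 i hi)
      exact ⟨j, fun _ => hj⟩
    · exact ⟨0, fun h => absurd h hi⟩
  choose J hJ using hex
  have h1 := card_eq_sum_card_image J (range d)
  rw [card_range] at h1
  set T := (range d).image J
  have h3 : d ≤ ∑ j ∈ T,
      66 * c * (X.filter fun v => 0 < v ∧ a j ≤ v ^ 2 ∧ v < a (j + 1)).card := by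
    rw [h1]
    refine sum_le_sum fun j _ => le_trans (card_le_card ?_) (fiber c d μ X hc hmono hv hstep j)
    intro i hi
    obtain ⟨b1, b2⟩ := mem_filter.1 hi
    exact mem_filter.2 ⟨b1, b2 ▸ hJ i (mem_range.1 b1)⟩
  have h4 : ∀ j, (X.filter fun v => 0 < v ∧ a j ≤ v ^ 2 ∧ v < a (j + 1)).card =
      ∑ v ∈ X.filter (fun v => 1 < v),
        if 0 < v ∧ a j ≤ v ^ 2 ∧ v < a (j + 1) then 1 else 0 := by
    intro j
    rw [← card_filter, filter_filter]
    congr 1
    refine filter_congr fun v _ => ⟨fun h => ⟨?_, h⟩, fun h => h.2⟩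
    have := two_le_a j
    obtain ⟨b1, b2, -⟩ := h
    nlinarith
  have h5 : ∑ j ∈ T, (X.filter fun v => 0 < v ∧ a j ≤ v ^ 2 ∧ v < a (j + 1)).card ≤
      2 * (X.filter fun v => 1 < v).card := by
    simp_rw [h4]
    rw [sum_comm, mul_comm, ← smul_eq_mul]
    refine sum_le_card_nsmul _ _ _ fun v _ => ?_
    rw [← card_filter]
    exact two_scales v T
  rw [← mul_sum] at h3
  calc d ≤ _ := h3
    _ ≤ 66 * c * (2 * (X.filter fun v => 1 < v).card) := Nat.mul_le_mul_left _ h5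
    _ = _ := by ring

end Pool.Agent.P.MP_5e916a_al
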