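import Pool.Agent.P.MP_5e916a_al.A.Iface

/-! Step IMP of the codegree project. -/

namespace Pool.Agent.P.MP_5e916a_al

open Subgroup
open scoped commutatorElement

namespace ImpA

variable {H V : Type} [Group H] [AddCommGroup V]

/-- Restriction of a representation to an invariant submodule. -/
def res (σ : H →* Module.End ℤ V) (W : Submodule ℤ V) (hW : ∀ h, ∀ w ∈ W, σ h w ∈ W) :
    H →* Module.End ℤ W where
  toFun h := (σ h).restrict (hW h)
  map_one' := by ext w; simp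
  map_mul' a b := by ext w; simp

theorem nm_coe (σ : H →* Module.End ℤ V) (W : Submodule ℤ V) (hW : ∀ h, ∀ w ∈ W, σ h w ∈ W)
    {U U' : Subgroup H} (hU : U' ≤ U) (k : ℕ) :
    ∀ v : W, NM (res σ W hW) U k v → NM σ U' k (v : V) := by
  induction k with
  | zero => intro v hv; exact congrArg Subtype.val (show v = 0 from hv)
  | succ k ih => intro v hv u hu; exact ih _ (hv u (hU hu))

theorem fixed (σ : H →* Module.End ℤ V) (U : Subgroup H) (Y : Submodule ℤ V)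
    (hY : ∀ h, ∀ w ∈ Y, σ h w ∈ Y) (k : ℕ) :
    ∀ v ∈ Y, v ≠ 0 → NM σ U k v → ∃ y ∈ Y, y ≠ 0 ∧ ∀ u ∈ U, σ u y = y := by
  induction k with
  | zero => intro v _ h0 hv; exact absurd hv h0
  | succ k ih =>
    intro v hv h0 hn
    by_cases h : ∀ u ∈ U, σ u v = v
    · exact ⟨v, hv, h0, h⟩
    · push Not at h
      obtain ⟨u, hu, hne⟩ := h
      exact ih _ (Y.sub_mem (hY u v hv) hv) (sub_ne_zero.2 hne) (hn u hu)

/-- The vectors fixed by `U`. -/
def Fx (σ : H →* Module.End ℤ V) (U : Subgroup H) : Submodule ℤ V where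
  carrier := {v | ∀ u ∈ U, σ u v = v}
  add_mem' ha hb u hu := by rw [map_add, ha u hu, hb u hu]
  zero_mem' u _ := map_zero _
  smul_mem' c v hv u hu := by rw [map_smul, hv u hu]

theorem swap (σ : H →* Module.End ℤ V) (a h : H) (v : V) :
    σ a (σ h v) = σ h (σ (h⁻¹ * a * h) v) := by
  rw [← Module.End.mul_apply, ← Module.End.mul_apply, ← map_mul, ← map_mul]
  congr 2
  group

theorem fx_inv (σ : H →* Module.End ℤ V) (U : Subgroup H) (hU : U.Normal) (h : H) :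
    ∀ v ∈ Fx σ U, σ h v ∈ Fx σ U := by
  intro v hv u hu
  rw [swap, hv _ (hU.conj_mem' u hu h)]

theorem map_map (σ : H →* Module.End ℤ V) (W : Submodule ℤ V) (a b : H) :
    (W.map (σ b)).map (σ a) = W.map (σ (a * b)) := by
  rw [← Submodule.map_comp, map_mul, Module.End.mul_eq_comp]

theorem map_one (σ : H →* Module.End ℤ V) (W : Submodule ℤ V) : W.map (σ 1) = W := by
  rw [_root_.map_one, Module.End.one_eq_id, Submodule.map_id]

/-- The action on the family. -/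
def perm (σ : H →* Module.End ℤ V) (I : Finset (Submodule ℤ V))
    (hI : ∀ h, ∀ W ∈ I, W.map (σ h) ∈ I) : H →* Equiv.Perm I :=
  MonoidHom.mk' (fun h =>
    { toFun := fun W => ⟨W.1.map (σ h), hI h _ W.2⟩
      invFun := fun W => ⟨W.1.map (σ h⁻¹), hI _ _ W.2⟩
      left_inv := fun W => Subtype.ext (by simp only [map_map, inv_mul_cancel, map_one])
      right_inv := fun W => Subtype.ext (by simp only [map_map, mul_inv_cancel, map_one]) })
    fun a b => Equiv.ext fun W => Subtype.ext (map_map σ W.1 a b).symm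

theorem triv [Finite V] (ρ : H →* Module.End ℤ V)
    (hs : ∀ W : Submodule ℤ V, (∀ h, ∀ w ∈ W, ρ h w ∈ W) → W = ⊥ ∨ W = ⊤)
    (I : Finset (Submodule ℤ V)) (hne : I.Nonempty) (h0 : ∀ W ∈ I, W ≠ ⊥)
    (hI : ∀ h, ∀ W ∈ I, W.map (ρ h) ∈ I) (K : Subgroup H) (hK : K.Normal)
    (hKI : ∀ W ∈ I, ∀ h : K, ∀ w ∈ W, ρ h w ∈ W) (U : Subgroup K) (hU : U.Normal)
    (hn : ∀ W ∈ I, ∃ k, ∀ v ∈ W, NM (ρ.comp K.subtype) U k v) :
    ∀ u ∈ U, ∀ v, ρ u v = v := by
  let F : Set (Submodule ℤ V) := {Y | Y ≠ ⊥ ∧ (∀ h : K, ∀ w ∈ Y, ρ h w ∈ Y) ∧ ∃ W ∈ I, Y ≤ W}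
  obtain ⟨W₀, hW₀⟩ := hne
  obtain ⟨Y, ⟨hY0, hYK, W, hW, hYW⟩, hmin⟩ := exists_minimalFor_of_wellFoundedLT (· ∈ F)
    (fun Y => (Y : Set V).ncard) ⟨W₀, h0 _ hW₀, hKI _ hW₀, W₀, hW₀, le_rfl⟩
  have key : ∀ h, Y.map (ρ h) ≤ Fx (ρ.comp K.subtype) U := by
    intro h
    have hinv : ∀ a : K, ∀ w ∈ Y.map (ρ h), ρ a w ∈ Y.map (ρ h) := by
      rintro a _ ⟨w, hw, rfl⟩
      exact ⟨_, hYK ⟨_, hK.conj_mem' _ a.2 h⟩ w hw, (swap ρ a h w).symm⟩
    have hnz : Y.map (ρ h) ≠ ⊥ := by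
      intro e
      apply hY0
      rw [← map_one ρ Y, ← inv_mul_cancel h, ← map_map, e, Submodule.map_bot]
    obtain ⟨v, hv, hv0⟩ := Submodule.exists_mem_ne_zero_of_ne_bot hnz
    have hle : Y.map (ρ h) ≤ W.map (ρ h) := Submodule.map_mono hYW
    obtain ⟨k, hk⟩ := hn _ (hI h W hW)
    obtain ⟨y, hy, hy0, hyf⟩ := fixed (ρ.comp K.subtype) U _ hinv k v hv hv0 (hk v (hle hv))
    have hF : Y.map (ρ h) ⊓ Fx (ρ.comp K.subtype) U ∈ F :=
      ⟨(Submodule.ne_bot_iff _).2 ⟨y, ⟨hy, hyf⟩, hy0⟩,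
        fun a w hw => ⟨hinv a w hw.1, fx_inv (ρ.comp K.subtype) U hU a w hw.2⟩,
        _, hI h W hW, inf_le_left.trans hle⟩
    have h1 := (le_total _ _).elim (hmin hF) id
    have h2 : (Y.map (ρ h) : Set V).ncard ≤ (Y : Set V).ncard := by
      rw [Submodule.map_coe]; exact Set.ncard_image_le
    have h3 := Set.eq_of_subset_of_ncard_le
      (show ((Y.map (ρ h) ⊓ Fx (ρ.comp K.subtype) U : Submodule ℤ V) : Set V) ⊆ Y.map (ρ h) from
        fun _ hx => hx.1) (h2.trans h1)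
    exact inf_eq_left.1 (SetLike.coe_injective h3)
  rcases hs (⨅ h, (Fx (ρ.comp K.subtype) U).comap (ρ h)) (by
    intro a w hw
    rw [Submodule.mem_iInf] at hw ⊢
    intro h
    have := hw (h * a)
    rwa [Submodule.mem_comap, map_mul] at this) with e | e
  · exact absurd (le_bot_iff.1 (e ▸ le_iInf fun h => Submodule.map_le_iff_le_comap.1 (key h))) hY0
  · intro u hu v
    have : v ∈ ⨅ h, (Fx (ρ.comp K.subtype) U).comap (ρ h) := e ▸ Submodule.mem_top
    have := (Submodule.mem_iInf _).1 this 1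
    rw [Submodule.mem_comap, _root_.map_one] at this
    exact this u hu

end ImpA

theorem p_IMP (hPERM : S_PERM) :
    S_IMP := by
  intro H V _ _ _ _ _ ρ hρ hs hPW I hne h0 hI hprod
  have : Nonempty I := hne.to_subtype
  have h1 := hPERM H I (ImpA.perm ρ I hI)
  have hKI : ∀ W ∈ I, ∀ h : (ImpA.perm ρ I hI).ker, ∀ w ∈ W, ρ h w ∈ W := by
    intro W hW h w hw
    have e : W.map (ρ h) = W :=
      congrArg Subtype.val (DFunLike.congr_fun (MonoidHom.mem_ker.1 h.2) (⟨W, hW⟩ : I))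
    exact e ▸ Submodule.mem_map_of_mem hw
  have hK : (ImpA.perm ρ I hI).ker.Normal := inferInstance
  generalize (ImpA.perm ρ I hI).ker = K at h1 hKI hK
  have hU : ∀ W : I, ∃ U : Subgroup K, U.Normal ∧
      (∃ k, ∀ v, NM (ImpA.res (ρ.comp K.subtype) W.1 (hKI W.1 W.2)) U k v) ∧
      16 * U.index ≤ Nat.card W.1 ^ 17 := by
    intro W
    have : Nontrivial W.1 := Submodule.nontrivial_iff_ne_bot.2 (h0 _ W.2).1
    obtain ⟨x, hx⟩ : ∃ x, x ∉ W.1 := by
      by_contra h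
      push Not at h
      exact (h0 _ W.2).2 (Submodule.eq_top_iff'.2 h)
    obtain ⟨U, a, -, b, c⟩ := hPW K W.1 (ImpA.res (ρ.comp K.subtype) W.1 (hKI W.1 W.2))
      (Finite.card_subtype_lt hx)
    exact ⟨U, a, b, c⟩
  choose U hUn hUk hUi using hU
  have hbot : ⨅ W, U W = ⊥ := by
    rw [eq_bot_iff]
    intro u hu
    have := ImpA.triv ρ hs I hne (fun W hW => (h0 W hW).1) hI K hK hKI (⨅ W, U W)
      (normal_iInf_normal hUn) (by
        intro W hW
        obtain ⟨k, hk⟩ := hUk ⟨W, hW⟩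
        exact ⟨k, fun v hv => ImpA.nm_coe _ W _ (iInf_le U ⟨W, hW⟩) k ⟨v, hv⟩ (hk _)⟩) u hu
    rw [mem_bot]
    refine Subtype.ext (hρ ?_)
    rw [OneMemClass.coe_one, map_one]
    exact LinearMap.ext this
  have h2 := index_iInf_le U
  rw [hbot, index_bot] at h2
  calc 16 * Nat.card H = 16 * K.index * Nat.card K := by rw [mul_assoc, index_mul_card]
    _ ≤ 16 ^ Nat.card I * ∏ W, (U W).index := Nat.mul_le_mul h1 h2
    _ = ∏ W, 16 * (U W).index := by
      rw [Finset.prod_mul_distrib, Finset.prod_const, Finset.card_univ, Nat.card_eq_fintype_card]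
    _ ≤ ∏ W : I, Nat.card W.1 ^ 17 := Finset.prod_le_prod' fun W _ => hUi W
    _ = (∏ W ∈ I, Nat.card W) ^ 17 := by
      rw [Finset.prod_pow, Finset.prod_coe_sort I fun W => Nat.card W]
    _ ≤ Nat.card V ^ 17 := Nat.pow_le_pow_left hprod 17

end Pool.Agent.P.MP_5e916a_al
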