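import Pool.Agent.P.MP_5e916a_al.A.Iface

/-! Step NUM of the codegree project. -/

namespace Pool.Agent.P.MP_5e916a_al

open Subgroup
open scoped commutatorElement

namespace NumA

theorem big (j : ℕ) :
    2 * (j + 10) * (j + 11) * (2 * (j + 10) * (j + 11) + 11) ≤ 121 * 2 ^ (j + 10) := by
  induction j with
  | zero => norm_num
  | succ j ih =>
    rw [show j + 1 + 10 = j + 10 + 1 by ring, pow_succ, ← mul_assoc 121]
    refine le_trans ?_ (Nat.mul_le_mul_right 2 ih)
    nlinarith [Nat.zero_le (j ^ 4), Nat.zero_le (j ^ 3), Nat.zero_le (j ^ 2)]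

theorem expo {k L : ℕ} (h : 2 ^ k < L * (L + 1)) : 2 * k * (k + 1) ≤ 11 * L := by
  by_contra hc
  rw [not_le] at hc
  rcases lt_or_ge k 10 with hk | hk
  · have hL : L < 17 := by nlinarith
    interval_cases k <;> interval_cases L <;> omega
  · obtain ⟨j, rfl⟩ := Nat.exists_eq_add_of_le' hk
    have h1 := (Nat.mul_le_mul hc.le (Nat.add_le_add_right hc.le 11)).trans (big j)
    rw [show 11 * L * (11 * L + 11) = 121 * (L * (L + 1)) by ring] at h1
    exact h.not_ge (Nat.le_of_mul_le_mul_left h1 (by norm_num))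

end NumA

open Classical in
theorem p_NUM :
    S_NUM := by
  refine ⟨fun n k L h1 h2 h3 => ?_, fun G _ _ E A c hA hc hz => ?_⟩
  · refine (Nat.pow_le_pow_left (Nat.mul_le_mul h3.le h3.le) k).trans ?_
    rw [← pow_add, ← pow_mul]
    exact Nat.pow_le_pow_right two_pos (le_trans (le_of_eq (by ring)) (NumA.expo (h2.trans_lt h1)))
  rcases isEmpty_or_nonempty {y : G // y ∈ E ∧ y ^ A.relIndex E = c} with h | h
  · simp
  let f : {y : G // y ∈ E ∧ y ^ A.relIndex E = c} → E ⧸ A.subgroupOf E := fun y =>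
    QuotientGroup.mk ⟨y.1, y.2.1⟩
  have hm : ∀ y, (Function.invFun f (f y)).1⁻¹ * y.1 ∈ A := fun y =>
    mem_subgroupOf.1 ((QuotientGroup.eq (s := A.subgroupOf E)).1
      (Function.invFun_eq (f := f) ⟨y, rfl⟩))
  have hp : ∀ y, (⟨_, hm y⟩ : A) ^ A.relIndex E = 1 := fun y => Subtype.ext (by
    have e := (show Commute _ _ from (hz _ (hm y) _ (Function.invFun f (f y)).2.1).symm).mul_pow
      (A.relIndex E)
    rw [mul_inv_cancel_left, y.2.2, (Function.invFun f (f y)).2.2] at e
    exact (left_eq_mul.1 e))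
  have := Fintype.ofFinite A
  have hk : Nat.card {a : A // a ^ A.relIndex E = 1} ≤ A.relIndex E := by
    rw [Nat.card_eq_fintype_card, Fintype.card_subtype]
    exact IsCyclic.card_pow_eq_one_le (Nat.pos_of_ne_zero index_ne_zero_of_finite)
  refine le_trans ?_ (Nat.mul_le_mul_left _ hk)
  refine (Nat.card_le_card_of_injective
    (fun y => (f y, (⟨_, hp y⟩ : {a : A // a ^ A.relIndex E = 1}))) fun y z e => ?_).trans
    (Nat.card_prod _ _).le
  have e1 : f y = f z := congrArg Prod.fst e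
  have e2 : (Function.invFun f (f y)).1⁻¹ * y.1 = (Function.invFun f (f z)).1⁻¹ * z.1 :=
    congrArg (fun t => t.2.1.1) e
  rw [e1] at e2
  exact Subtype.ext (mul_left_cancel e2)

end Pool.Agent.P.MP_5e916a_al
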