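import Pool.Agent.P.MP_5e916a_al.A.Iface

/-! Step PERM of the codegree project. -/

namespace Pool.Agent.P.MP_5e916a_al

open Subgroup
open scoped commutatorElement

namespace PermA

open MulAction

theorem sq_le (k : ℕ) : (k + 2) ^ 2 + 4 ≤ 4 * 2 ^ (k + 1) := by
  induction k with
  | zero => norm_num
  | succ k ih => rw [pow_succ 2 (k + 1)]; nlinarith

theorem num {m : ℕ} (hm : m ≠ 0) : 16 * (m ^ Nat.log 2 m * m) ≤ 16 ^ m := by
  have h1 := Nat.lt_pow_succ_log_self one_lt_two m
  have h2 := Nat.pow_log_le_self 2 hm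
  generalize Nat.log 2 m = k at h1 h2
  rcases k with _ | k
  · obtain rfl : m = 1 := by omega
    norm_num
  · have h3 := sq_le k
    calc 16 * (m ^ (k + 1) * m) = 2 ^ 4 * m ^ (k + 2) := by ring
      _ ≤ 2 ^ 4 * (2 ^ (k + 2)) ^ (k + 2) := by gcongr
      _ = 2 ^ ((k + 2) ^ 2 + 4) := by rw [← pow_mul, ← pow_add, sq, add_comm]
      _ ≤ 2 ^ (4 * m) := Nat.pow_le_pow_right two_pos (by omega)
      _ = 16 ^ m := by rw [pow_mul]; norm_num

theorem one (hGL : S_GL) {S Ω : Type} [Group S] [Finite S] [Finite Ω] [MulAction S Ω]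
    (L K : Subgroup S) [hL : L.Normal] (hc : ∀ a ∈ L, ∀ b ∈ L, a * b = b * a)
    (hK : ∀ g ∈ K, ∀ x : Ω, g • x ∈ orbit L x) (x : Ω) :
    16 * (⨅ a : L, stabilizer K (a • x)).index ≤ 16 ^ (orbit L x).ncard := by
  have hm : (orbit L x).ncard ≠ 0 := ((Set.ncard_pos).2 ⟨x, mem_orbit_self x⟩).ne'
  have hD : (stabilizer K x).index ≤ (orbit L x).ncard := by
    rw [index_stabilizer]
    refine Set.ncard_le_ncard ?_
    rintro _ ⟨g, rfl⟩
    exact hK g g.2 x
  have h1 := hGL.1 L (stabilizer K x) (fun a => stabilizer (stabilizer K x) (a • x))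
    (stabilizer L x) (orbit L x).ncard (Nat.log 2 (orbit L x).ncard) ?_ ?_ ?_ ?_
  · have h2 : (⨅ a : L, stabilizer K (a • x)) ≤ stabilizer K x :=
      (iInf_le _ 1).trans (by rw [one_smul])
    have h3 : (⨅ a : L, stabilizer K (a • x)).subgroupOf (stabilizer K x) =
        ⨅ a : L, stabilizer (stabilizer K x) (a • x) := by
      ext g
      simp only [mem_subgroupOf, mem_iInf, mem_stabilizer_iff]
      rfl
    rw [← relIndex_mul_index h2, relIndex, h3]
    exact (Nat.mul_le_mul_left _ (Nat.mul_le_mul h1 hD)).trans (num hm)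
  · rintro ⟨a, ha⟩ ⟨b, hb⟩ ⟨⟨g, hg⟩, g0⟩ ⟨g1, g2⟩
    replace g0 : g • x = x := g0
    replace g1 : g • a • x = a • x := g1
    replace g2 : g • b • x = b • x := g2
    change g • (a * b) • x = (a * b) • x
    have g3 : g⁻¹ • x = x := inv_smul_eq_iff.2 g0.symm
    calc g • (a * b) • x = (g * a * g⁻¹) • g • b • x := by simp [mul_smul]
      _ = (b * (g * a * g⁻¹)) • x := by rw [g2, ← mul_smul, hc _ (hL.conj_mem a ha g) b hb]
      _ = (a * b) • x := by rw [hc a ha b hb]; simp only [mul_smul, g3, g1]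
  · intro a ha
    rw [eq_top_iff]
    intro g _
    rw [mem_stabilizer_iff.1 ha]
    exact g.2
  · intro a
    rw [index_stabilizer, ← orbit_smul a x]
    refine Set.ncard_le_ncard ?_
    rintro _ ⟨g, rfl⟩
    exact hK g g.1.2 _
  · rw [index_stabilizer]
    exact Nat.lt_pow_succ_log_self one_lt_two _

/-- The action on the orbits of a normal subgroup. -/
abbrev act {S : Type} (Ω : Type) [Group S] [MulAction S Ω] (L : Subgroup S)
    [hL : L.Normal] : MulAction S (orbitRel.Quotient L Ω) where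
  smul g := Quotient.map' (g • ·) (by
    rintro _ y ⟨⟨a, ha⟩, rfl⟩
    refine ⟨⟨g * a * g⁻¹, hL.conj_mem a ha g⟩, ?_⟩
    change (g * a * g⁻¹) • g • y = g • a • y
    simp [mul_smul])
  one_smul o := Quotient.inductionOn' o fun x => congrArg Quotient.mk'' (one_smul S x)
  mul_smul g h o := Quotient.inductionOn' o fun x => congrArg Quotient.mk'' (mul_smul g h x)

theorem step (hGL : S_GL) (hSL : S_SL) {S Ω : Type} [Group S] [Finite S] [Group.IsSolvable S]
    [Finite Ω] [Nonempty Ω] [MulAction S Ω] [FaithfulSMul S Ω]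
    (ih : ∀ (Ω' : Type) [Finite Ω'] [Nonempty Ω'] (φ : S →* Equiv.Perm Ω'),
      Nat.card Ω' < Nat.card Ω → 16 * φ.ker.index ≤ 16 ^ Nat.card Ω') :
    16 * Nat.card S ≤ 16 ^ Nat.card Ω := by
  classical
  rcases subsingleton_or_nontrivial S with h | h
  · rw [Nat.card_unique, mul_one]
    exact Nat.le_self_pow Nat.card_pos.ne' 16
  obtain ⟨L, hL, -, h1, h2⟩ := hSL.1 S ⊤ ⊥ inferInstance inferInstance (by simp)
  have hc : ∀ a ∈ L, ∀ b ∈ L, a * b = b * a := fun a ha b hb =>
    commutatorElement_eq_one_iff_mul_comm.1 (mem_bot.1 (h2 (commutator_mem_commutator ha hb)))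
  let _ := act Ω L
  let _ := Fintype.ofFinite Ω
  let _ := Fintype.ofFinite (orbitRel.Quotient L Ω)
  let K := (toPermHom S (orbitRel.Quotient L Ω)).ker
  have hK : ∀ g ∈ K, ∀ x : Ω, g • x ∈ orbit L x := fun g hg x =>
    Quotient.exact' (s₁ := orbitRel L Ω) (DFunLike.congr_fun (MonoidHom.mem_ker.1 hg)
      (Quotient.mk'' x))
  have h3 : Nat.card (orbitRel.Quotient L Ω) < Nat.card Ω := by
    simp only [Nat.card_eq_fintype_card]
    refine Fintype.card_lt_of_surjective_not_injective Quotient.mk'' Quotient.mk''_surjective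
      fun hi => h1 fun a ha => mem_bot.2 (eq_of_smul_eq_smul fun x : Ω => ?_)
    rw [one_smul]
    exact hi (Quotient.sound' ⟨⟨a, ha⟩, rfl⟩)
  have : Nonempty (orbitRel.Quotient L Ω) := Nonempty.map Quotient.mk'' inferInstance
  have h4 : 16 * K.index ≤ _ := ih _ _ h3
  have h5 : (⨅ o : orbitRel.Quotient L Ω, ⨅ a : L, stabilizer K (a • o.out)) = ⊥ := by
    rw [eq_bot_iff]
    intro g hg
    refine mem_bot.2 (eq_of_smul_eq_smul fun x : Ω => ?_)
    obtain ⟨a, ha⟩ : x ∈ orbit L (Quotient.mk'' x : orbitRel.Quotient L Ω).out :=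
      (orbitRel L Ω).symm (Quotient.mk_out' (s₁ := orbitRel L Ω) x)
    have := mem_iInf.1 (mem_iInf.1 hg (Quotient.mk'' x)) a
    rw [mem_stabilizer_iff, show a • _ = x from ha] at this
    rw [this, one_smul]
  have h6 := index_iInf_le fun o : orbitRel.Quotient L Ω => ⨅ a : L, stabilizer K (a • o.out)
  rw [h5, index_bot] at h6
  have h7 : Nat.card Ω = ∑ o : orbitRel.Quotient L Ω, (orbit L o.out).ncard := by
    rw [Nat.card_congr (selfEquivSigmaOrbits L Ω), Nat.card_sigma]
    rfl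
  calc 16 * Nat.card S = 16 * K.index * Nat.card K := by rw [mul_assoc, index_mul_card]
    _ ≤ _ := Nat.mul_le_mul h4 h6
    _ = ∏ o : orbitRel.Quotient L Ω, 16 * (⨅ a : L, stabilizer K (a • o.out)).index := by
      rw [Finset.prod_mul_distrib, Finset.prod_const, Finset.card_univ, Nat.card_eq_fintype_card]
    _ ≤ ∏ o : orbitRel.Quotient L Ω, 16 ^ (orbit L o.out).ncard :=
      Finset.prod_le_prod' fun o _ => one hGL L K hc hK _
    _ = _ := by rw [Finset.prod_pow_eq_pow_sum, h7]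

end PermA

theorem p_PERM (hGL : S_GL) (hSL : S_SL) :
    S_PERM := by
  intro S Ω _ _ _ _ _ φ
  induction hn : Nat.card Ω using Nat.strong_induction_on generalizing S Ω with
  | _ n ih =>
    subst hn
    have : Group.IsSolvable φ.range := Group.isSolvable_of_surjective φ.rangeRestrict_surjective
    rw [index_ker]
    exact PermA.step hGL hSL fun Ω' _ _ ψ h => ih _ h _ Ω' ψ rfl

end Pool.Agent.P.MP_5e916a_al
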