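import Pool.Agent.P.MP_5e916a_al.A.Iface

/-! Step PWA of the codegree project. -/

namespace Pool.Agent.P.MP_5e916a_al

open Subgroup
open scoped commutatorElement

namespace PwaA

variable {H V V' : Type} [Group H] [AddCommGroup V] [AddCommGroup V']
  {ρ : H →* Module.End ℤ V} {ρ' : H →* Module.End ℤ V'} {U U' : Subgroup H}

theorem map (f : V →+ V') (hf : ∀ h v, f (ρ h v) = ρ' h (f v)) (hU : U' ≤ U) :
    ∀ k v, NM ρ U k v → NM ρ' U' k (f v)
  | 0, v, h => by rw [show v = 0 from h]; exact map_zero f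
  | k + 1, v, h => fun u hu => by
    rw [← hf, ← map_sub]
    exact map f hf hU k _ (h u (hU hu))

theorem lift (f : V →+ V') (hf : ∀ h v, f (ρ h v) = ρ' h (f v)) (hU : U ≤ U') {l : ℕ}
    (h0 : ∀ v, f v = 0 → NM ρ U l v) : ∀ k v, NM ρ' U' k (f v) → NM ρ U (l + k) v
  | 0, v, h => h0 v h
  | k + 1, v, h => fun u hu => lift f hf hU h0 k _ (by
    rw [map_sub, hf]
    exact h u (hU hu))

end PwaA

theorem p_PWA (hSIM : S_SIM) :
    S_PWA := by
  intro n
  induction n with
  | zero => exact fun H V _ _ _ _ _ _ ρ h => absurd h (Nat.not_lt_zero _)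
  | succ n ih =>
    intro H V _ _ _ _ _ _ ρ hn
    have hV : PW (Nat.card V) := fun H V' _ _ _ _ _ _ ρ h =>
      ih H V' ρ (h.trans_le (Nat.le_of_lt_succ hn))
    by_cases hs : ∀ W : Submodule ℤ V, (∀ h, ∀ w ∈ W, ρ h w ∈ W) → W = ⊥ ∨ W = ⊤
    · refine ⟨ρ.ker, inferInstance, le_rfl, ⟨1, fun v u hu => ?_⟩, ?_⟩
      · change ρ u v - v = 0
        rw [MonoidHom.mem_ker.1 hu]
        simp
      · rw [index_eq_card]
        refine hSIM (H ⧸ ρ.ker) V (QuotientGroup.lift ρ.ker ρ fun _ h => h) ?_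
          (fun W hW => hs W fun h => hW (h : H ⧸ ρ.ker)) hV
        refine (injective_iff_map_eq_one _).2 fun x hx => ?_
        obtain ⟨x, rfl⟩ := QuotientGroup.mk_surjective x
        exact (QuotientGroup.eq_one_iff x).2 hx
    · push Not at hs
      obtain ⟨W, hW, h0, h1⟩ := hs
      have hW' : ∀ h, W ≤ W.comap (ρ h) := hW
      have : Nontrivial W := Submodule.nontrivial_iff_ne_bot.2 h0
      have : Nontrivial (V ⧸ W) := Submodule.Quotient.nontrivial_iff.2 h1
      have : Finite (V ⧸ W) := Finite.of_surjective _ W.mkQ_surjective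
      have hc : Nat.card V = Nat.card W * Nat.card (V ⧸ W) := W.card_eq_card_quotient_mul_card
      have c1 : 1 < Nat.card W := Finite.one_lt_card
      have c2 : 1 < Nat.card (V ⧸ W) := Finite.one_lt_card
      obtain ⟨U₁, a1, a2, ⟨k₁, a3⟩, a4⟩ :=
        hV H W (Representation.subrepresentation ρ W hW') (by nlinarith)
      obtain ⟨U₂, b1, b2, ⟨k₂, b3⟩, b4⟩ :=
        hV H (V ⧸ W) (Representation.quotient ρ W hW') (by nlinarith)
      refine ⟨U₁ ⊓ U₂, inferInstance, fun h hh => ⟨a2 ?_, b2 ?_⟩, ⟨k₁ + k₂, fun v => ?_⟩, ?_⟩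
      · refine MonoidHom.mem_ker.2 (LinearMap.ext fun w => Subtype.ext ?_)
        change ρ h w = w
        rw [MonoidHom.mem_ker.1 hh]
        rfl
      · refine MonoidHom.mem_ker.2 (LinearMap.ext fun w => ?_)
        obtain ⟨w, rfl⟩ := W.mkQ_surjective w
        change W.mkQ (ρ h w) = W.mkQ w
        rw [MonoidHom.mem_ker.1 hh]
        rfl
      · refine PwaA.lift W.mkQ.toAddMonoidHom (fun _ _ => rfl) inf_le_right (fun w hw => ?_) k₂ v
          (b3 _)
        exact PwaA.map W.subtype.toAddMonoidHom (fun _ _ => rfl) inf_le_left k₁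
          ⟨w, (Submodule.Quotient.mk_eq_zero W).1 hw⟩ (a3 _)
      · have h2 : (U₁ ⊓ U₂).index ≤ U₁.index * U₂.index := index_inf_le
        rw [hc, mul_pow]
        refine le_trans ?_ (Nat.mul_le_mul a4 b4)
        nlinarith [Nat.zero_le (U₁.index * U₂.index)]

end Pool.Agent.P.MP_5e916a_al
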