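import Pool.Agent.P.MP_5e916a_al.A.Iface

/-! Step PWB of the codegree project. -/

namespace Pool.Agent.P.MP_5e916a_al

open Subgroup
open scoped commutatorElement

namespace PwbA

/-- Every commutator of length `k` of `x` with members of `U` lies in `Y`. -/
def NG {T : Type} [Group T] (U Y : Subgroup T) : ℕ → T → Prop
  | 0, x => x ∈ Y
  | k + 1, x => ∀ u ∈ U, NG U Y k ⁅u, x⁆

variable {T : Type} [Group T]

theorem NG.mono {U U' Y : Subgroup T} (h : U' ≤ U) : ∀ {k : ℕ} {x : T}, NG U Y k x → NG U' Y k x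
  | 0, _, hx => hx
  | _ + 1, _, hx => fun u hu => NG.mono h (hx u (h hu))

theorem NG.trans {U Y Z : Subgroup T} {l : ℕ} (h : ∀ y ∈ Y, NG U Z l y) :
    ∀ {k : ℕ} {x : T}, NG U Y k x → NG U Z (l + k) x
  | 0, x, hx => h x hx
  | _ + 1, _, hx => fun u hu => NG.trans h (hx u hu)

theorem NG.comap {T' : Type} [Group T'] (φ : T →* T') {U : Subgroup T'} :
    ∀ {k : ℕ} {x : T}, NG U ⊥ k (φ x) → NG (U.comap φ) φ.ker k x
  | 0, _, hx => hx
  | _ + 1, x, hx => fun u hu => NG.comap φ (by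
      rw [map_commutatorElement]
      exact hx (φ u) hu)

theorem NG.ucs {L : Subgroup T} :
    ∀ {k : ℕ} {x : L}, NG L ⊥ k (x : T) → x ∈ Subgroup.upperCentralSeries L k
  | 0, x, hx => by
      rw [Subgroup.upperCentralSeries_zero, mem_bot]
      exact Subtype.ext hx
  | k + 1, x, hx => Subgroup.mem_upperCentralSeries_succ_iff.2 fun y => by
      rw [← commutatorElement_inv]
      exact inv_mem (NG.ucs (x := ⁅y, x⁆) (hx y y.2))

theorem ab (hPWA : S_PWA) [Finite T] [Group.IsSolvable T] (Y : Subgroup T) [Y.Normal]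
    (hY : Y ≠ ⊥) (hc : ∀ a ∈ Y, ∀ b ∈ Y, a * b = b * a) :
    ∃ U : Subgroup T, U.Normal ∧ centralizer (Y : Set T) ≤ U ∧ (∃ k, ∀ y ∈ Y, NG U ⊥ k y) ∧
      U.index ≤ Nat.card Y ^ 17 := by
  let _ : CommGroup Y := { (inferInstance : Group Y) with
    mul_comm := fun a b => Subtype.ext (hc a a.2 b b.2) }
  have := (Subgroup.nontrivial_iff_ne_bot Y).2 hY
  let ρ : T →* Module.End ℤ (Additive Y) :=
    { toFun := fun h => (MonoidHom.toAdditive (MulAut.conjNormal h).toMonoidHom).toIntLinearMap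
      map_one' := by
        refine LinearMap.ext fun v => ?_
        rw [map_one]
        rfl
      map_mul' := fun a b => by
        refine LinearMap.ext fun v => ?_
        rw [map_mul]
        rfl }
  obtain ⟨U, h1, h2, ⟨k, h3⟩, h4⟩ := hPWA _ T (Additive Y) ρ (Nat.lt_succ_self _)
  have key : ∀ (k : ℕ) (v : Additive Y), NM ρ U k v → NG U ⊥ k ((Additive.toMul v : Y) : T) := by
    intro k
    induction k with
    | zero =>
      intro v hv
      rw [show v = 0 from hv]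
      exact mem_bot.2 rfl
    | succ k ih =>
      intro v hv u hu
      have h := ih _ (hv u hu)
      rw [toMul_sub, div_eq_mul_inv] at h
      exact h
  refine ⟨U, h1, le_trans (fun c hc => ?_) h2, ⟨k, fun y hy => key k (Additive.ofMul ⟨y, hy⟩) (h3 _)⟩,
    le_trans (Nat.le_mul_of_pos_left _ (by norm_num)) h4⟩
  refine LinearMap.ext fun v => Additive.toMul.injective (Subtype.ext ?_)
  change c * (Additive.toMul v : Y) * c⁻¹ = (Additive.toMul v : Y)
  rw [← hc _ (Additive.toMul v).2, mul_inv_cancel_right]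

theorem nil (hPWA : S_PWA) (n : ℕ) : ∀ (T : Type) [Group T] [Finite T] [Group.IsSolvable T]
    (X : Subgroup T) [X.Normal] [Group.IsNilpotent X], Nat.card X = n →
    ∃ U : Subgroup T, U.Normal ∧ X ≤ U ∧ (∃ k, ∀ x ∈ X, NG U ⊥ k x) ∧ U.index ≤ n ^ 17 := by
  induction n using Nat.strong_induction_on with
  | _ n ih =>
  intro T _ _ _ X _ _ hn
  by_cases hX : X = ⊥
  · subst hX
    exact ⟨⊤, inferInstance, le_top, ⟨0, fun x hx => hx⟩, by simp [← hn]⟩
  have := (Subgroup.nontrivial_iff_ne_bot X).2 hX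
  let Y := X ⊓ centralizer (X : Set T)
  have hY : Y ≠ ⊥ := by
    obtain ⟨⟨z, hz⟩, h1⟩ := Subgroup.ne_bot_iff_exists_ne_one.1
      (Group.IsNilpotent.center_ne_bot X)
    refine Subgroup.ne_bot_iff_exists_ne_one.2 ⟨⟨z, z.2, fun x hx => ?_⟩, fun h => h1 ?_⟩
    · exact congrArg Subtype.val (mem_center_iff.1 hz ⟨x, hx⟩)
    · exact Subtype.ext (Subtype.ext (congrArg (fun y : Y => (y : T)) h))
  obtain ⟨U1, a1, a2, ⟨k1, a3⟩, a4⟩ := ab hPWA Y hY fun a ha b hb => hb.2 a ha.1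
  let φ := QuotientGroup.mk' Y
  have hφ : Function.Surjective φ := QuotientGroup.mk'_surjective Y
  have hk : φ.ker = Y := QuotientGroup.ker_mk' Y
  have hcard : Nat.card Y * Nat.card (X.map φ) = n := by
    rw [← relIndex_ker, hk, ← hn, ← Nat.card_congr (subgroupOfEquivOfLe (H := Y) (K := X)
      inf_le_left).toEquiv]
    exact card_mul_index _
  have h1 : 1 < Nat.card Y := (Subgroup.one_lt_card_iff_ne_bot Y).2 hY
  have h2 : 0 < Nat.card (X.map φ) := Nat.card_pos
  have : (X.map φ).Normal := Subgroup.Normal.map inferInstance φ hφ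
  have : Group.IsNilpotent (X.map φ) :=
    Group.nilpotent_of_surjective (φ.subgroupMap X) (φ.subgroupMap_surjective X)
  obtain ⟨U2, b1, b2, ⟨k2, b3⟩, b4⟩ := ih (Nat.card (X.map φ)) (by nlinarith) (T ⧸ Y) (X.map φ) rfl
  refine ⟨U1 ⊓ U2.comap φ, inferInstance, le_inf (fun x hx => a2 fun y hy => ?_)
    (map_le_iff_le_comap.1 b2), ⟨k1 + k2, fun x hx => NG.trans (Y := Y)
      (fun y hy => (a3 y hy).mono inf_le_left) ?_⟩, index_inf_le.trans ?_⟩
  · exact (hy.2 x hx).symm
  · have h := NG.comap φ (b3 (φ x) (mem_map_of_mem φ hx))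
    rw [hk] at h
    exact h.mono inf_le_right
  · rw [index_comap_of_surjective _ hφ, ← hcard, mul_pow]
    exact Nat.mul_le_mul a4 b4

end PwbA

open PwbA in
theorem p_PWB (hSL : S_SL) (hPWA : S_PWA) :
    S_PWB := by
  intro T _ _ _
  obtain ⟨F, ⟨hF, hN⟩, hmax⟩ := Set.exists_max_image
    {F : Subgroup T | F.Normal ∧ Group.IsNilpotent F} (fun F => Nat.card F) (Set.toFinite _)
    ⟨⊥, inferInstance, inferInstance⟩
  obtain ⟨U, a1, a2, ⟨k, a3⟩, a4⟩ := nil hPWA _ T F rfl
  have hU : U ≤ F := by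
    by_contra hc
    obtain ⟨L, b1, b2, b3, b4⟩ := hSL.1 T U F a1 hF hc
    have h1 := hSL.2.1 T L F F hF b4 (commutator_le_right F F) (commutator_le_right L F)
    have h2 : Group.IsNilpotent (L ⊔ F : Subgroup T) :=
      ⟨k + 1, eq_top_iff.2 fun x _ => NG.ucs (k := k + 1) fun u hu =>
        (a3 _ (h1 (commutator_mem_commutator hu x.2))).mono (sup_le b2 a2)⟩
    exact b3 (le_sup_left.trans
      (eq_of_le_of_card_ge le_sup_right (hmax _ ⟨inferInstance, h2⟩)).ge)
  refine ⟨F, hF, hN, ?_⟩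
  rw [← F.card_mul_index, pow_succ', ← le_antisymm hU a2]
  refine Nat.mul_le_mul_left _ ?_
  rwa [← le_antisymm hU a2] at a4

end Pool.Agent.P.MP_5e916a_al
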