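import Pool.Agent.P.MP_5e916a_al.A.Iface

/-! Step QP of the codegree project. -/

namespace Pool.Agent.P.MP_5e916a_al

open Subgroup
open scoped commutatorElement

namespace QpA

theorem index_le_of {D S : Type} [Group D] [Finite S] (K : Subgroup D) (f : D → S)
    (hf : ∀ x y, f x = f y → x⁻¹ * y ∈ K) : K.index ≤ Nat.card S := by
  rw [index_eq_card]
  refine Nat.card_le_card_of_injective (fun q : D ⧸ K => f q.out) fun p q h => ?_
  rw [← QuotientGroup.out_eq' p, ← QuotientGroup.out_eq' q]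
  exact QuotientGroup.eq.2 (hf _ _ h)

variable {H V : Type} [Group H] [AddCommGroup V]

theorem sub_inj (ρ : H →* Module.End ℤ V) (hρ : Function.Injective ρ) (A : Subgroup H)
    (hR : ∀ r ∈ Subring.closure (ρ '' (A : Set H)), r ≠ 0 → Function.Injective r)
    {a b : H} (ha : a ∈ A) (hb : b ∈ A) (hab : a ≠ b) {v : V} (hv : (ρ a - ρ b) v = 0) :
    v = 0 := by
  have h1 : ρ a - ρ b ∈ Subring.closure (ρ '' (A : Set H)) :=
    sub_mem (Subring.subset_closure ⟨a, ha, rfl⟩) (Subring.subset_closure ⟨b, hb, rfl⟩)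
  have h2 := hR _ h1 (sub_ne_zero.2 fun h => hab (hρ h))
  exact h2 (by rw [hv, map_zero])

open scoped IsMulCommutative in
theorem cyc [Finite H] [Nontrivial V] (ρ : H →* Module.End ℤ V) (hρ : Function.Injective ρ)
    (A : Subgroup H) (hA : ∀ a ∈ A, ∀ b ∈ A, a * b = b * a)
    (hR : ∀ r ∈ Subring.closure (ρ '' (A : Set H)), r ≠ 0 → Function.Injective r) :
    IsCyclic A := by
  have hc : IsMulCommutative (Subring.closure (ρ '' (A : Set H))) := by
    refine Subring.isMulCommutative_closure ?_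
    rintro _ ⟨a, ha, rfl⟩ _ ⟨b, hb, rfl⟩
    rw [← map_mul, ← map_mul, hA a ha b hb]
  have hz : NoZeroDivisors (Subring.closure (ρ '' (A : Set H))) := by
    refine ⟨fun {x y} h => ?_⟩
    by_cases hx : x = 0
    · exact Or.inl hx
    · refine Or.inr (Subtype.ext (LinearMap.ext fun v => ?_))
      have h1 := hR x.1 x.2 fun h0 => hx (Subtype.ext h0)
      have h2 : (x.1 * y.1) v = 0 := by
        have := congrArg Subtype.val h
        rw [Subring.coe_mul] at this
        rw [this]; rfl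
      exact h1 (by rw [← Module.End.mul_apply, h2]; simp)
  have hd : IsDomain (Subring.closure (ρ '' (A : Set H))) := NoZeroDivisors.to_isDomain _
  let f : A →* Subring.closure (ρ '' (A : Set H)) :=
    { toFun := fun a => ⟨ρ a, Subring.subset_closure ⟨a, a.2, rfl⟩⟩
      map_one' := Subtype.ext (by simp)
      map_mul' := fun a b => Subtype.ext (by simp) }
  refine isCyclic_of_injective_ringHom f fun a b h => Subtype.ext (hρ ?_)
  exact congrArg Subtype.val h

theorem card_le [Finite V] [Nontrivial V] (ρ : H →* Module.End ℤ V) (hρ : Function.Injective ρ)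
    (A : Subgroup H)
    (hR : ∀ r ∈ Subring.closure (ρ '' (A : Set H)), r ≠ 0 → Function.Injective r) :
    Nat.card A ≤ Nat.card V := by
  obtain ⟨v, hv⟩ := exists_ne (0 : V)
  refine Nat.card_le_card_of_injective (fun a : A => ρ a v) fun a b h => ?_
  by_contra hab
  refine hv (sub_inj ρ hρ A hR a.2 b.2 (fun h' => hab (Subtype.ext h')) ?_)
  rw [LinearMap.sub_apply]
  exact sub_eq_zero.2 h

theorem index_cent [Finite H] (A : Subgroup H) [hN : A.Normal] (hc : IsCyclic A) :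
    (centralizer (A : Set H)).index ≤ Nat.card A := by
  obtain ⟨g, hg⟩ := hc.exists_zpow_surjective
  refine index_le_of _ (fun x => (⟨x * g * x⁻¹, hN.conj_mem _ g.2 x⟩ : A)) fun x y h => ?_
  have h1 : x * g * x⁻¹ = y * g * y⁻¹ := congrArg Subtype.val h
  have h2 : Commute (g : H) (x⁻¹ * y) := by
    have : (g : H) = x⁻¹ * (y * g * y⁻¹) * x := by rw [← h1]; group
    show (g : H) * (x⁻¹ * y) = x⁻¹ * y * g
    calc (g : H) * (x⁻¹ * y) = x⁻¹ * (y * g * y⁻¹) * x * (x⁻¹ * y) := by rw [← this]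
      _ = x⁻¹ * y * g := by group
  rw [mem_centralizer_iff]
  intro a ha
  obtain ⟨k, hk⟩ := hg ⟨a, ha⟩
  have h3 : (g : H) ^ k = a := by
    have := congrArg Subtype.val hk
    simpa using this
  rw [← h3]
  exact (h2.zpow_left k).eq

theorem exists_E (hSL : S_SL) [Finite H] [Group.IsSolvable H] (A : Subgroup H) [hN : A.Normal]
    (hA : ∀ a ∈ A, ∀ b ∈ A, a * b = b * a)
    (hmax : ∀ B : Subgroup H, B.Normal → (∀ a ∈ B, ∀ b ∈ B, a * b = b * a) → A ≤ B → B ≤ A) :
    ∃ E : Subgroup H, E.Normal ∧ A ≤ E ∧ E ≤ centralizer (A : Set H) ∧ ⁅E, E⁆ ≤ A ∧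
      centralizer (A : Set H) ⊓ centralizer (E : Set H) ≤ A := by
  have h0 : A.Normal ∧ A ≤ A ∧ A ≤ centralizer (A : Set H) ∧ ⁅A, A⁆ ≤ A :=
    ⟨hN, le_rfl, fun a ha => mem_centralizer_iff.2 fun b hb => hA b hb a ha,
      commutator_le_right _ _⟩
  obtain ⟨E, -, ⟨hE, hAE, hEC, hEE⟩, hm⟩ := Finite.exists_le_maximal
    (p := fun E : Subgroup H => E.Normal ∧ A ≤ E ∧ E ≤ centralizer (A : Set H) ∧ ⁅E, E⁆ ≤ A) h0
  refine ⟨E, hE, hAE, hEC, hEE, ?_⟩
  by_contra hY
  obtain ⟨L, hL, hLY, hLA, hLL⟩ := hSL.1 H _ A inferInstance hN hY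
  have hLE : L ≤ centralizer (E : Set H) := hLY.trans inf_le_right
  have h1 : ⁅E, L⁆ ≤ A := by
    rw [commutator_comm, commutator_eq_bot_iff_le_centralizer.2 hLE]
    exact bot_le
  have h2 : E ⊔ L ≤ E := hm ⟨inferInstance, hAE.trans le_sup_left,
    sup_le hEC (hLY.trans inf_le_left), hSL.2.1 H E L A hN hEE hLL h1⟩ le_sup_left
  refine hLA ((le_inf (le_sup_right.trans h2) hLE).trans
    (hmax _ inferInstance (fun a ha b hb => ?_) (le_inf hAE fun a ha => ?_)))
  · exact mem_centralizer_iff.1 hb.2 a ha.1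
  · exact mem_centralizer_iff.2 fun b hb => (mem_centralizer_iff.1 (hEC hb) a ha).symm

/-- The twisted commutants. -/
def Pc (ρ : H →* Module.End ℤ V) (E : Subgroup H) (x : H) : AddSubgroup (Module.End ℤ V) where
  carrier := {T | ∀ g ∈ E, ρ g * T = ρ ⁅g, x⁆ * T * ρ g}
  zero_mem' := fun g _ => by simp
  add_mem' := fun {S T} hS hT g hg => by rw [mul_add, mul_add, add_mul, hS g hg, hT g hg]
  neg_mem' := fun {T} hT g hg => by rw [mul_neg, mul_neg, neg_mul, hT g hg]

theorem two_pow_le (hSL : S_SL) [Finite H] [Nontrivial V] [Finite (Module.End ℤ V)]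
    (ρ : H →* Module.End ℤ V) (hρ : Function.Injective ρ) (A E : Subgroup H)
    (hR : ∀ r ∈ Subring.closure (ρ '' (A : Set H)), r ≠ 0 → Function.Injective r)
    (hAE : A ≤ E) (hEC : E ≤ centralizer (A : Set H)) (hEE : ⁅E, E⁆ ≤ A)
    (hY : centralizer (A : Set H) ⊓ centralizer (E : Set H) ≤ A) :
    2 ^ A.relIndex E ≤ Nat.card (Module.End ℤ V) := by
  classical
  have : Fintype (E ⧸ A.subgroupOf E) := Fintype.ofFinite _
  have hcm : ∀ g ∈ E, ∀ x : E, ⁅g, (x : H)⁆ ∈ A := fun g hg x =>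
    hEE (commutator_mem_commutator hg x.2)
  have hmul : ∀ a ∈ A, ∀ x : E, ∀ T ∈ Pc ρ E x, ρ a * T ∈ Pc ρ E x := by
    intro a ha x T hT g hg
    have e1 : ρ g * ρ a = ρ a * ρ g := by
      rw [← map_mul, ← map_mul, mem_centralizer_iff.1 (hEC hg) a ha]
    have e2 : ρ a * ρ ⁅g, (x : H)⁆ = ρ ⁅g, (x : H)⁆ * ρ a := by
      rw [← map_mul, ← map_mul, mem_centralizer_iff.1 (hEC (hAE (hcm g hg x))) a ha]
    rw [← mul_assoc, e1, mul_assoc, hT g hg, ← mul_assoc, ← mul_assoc, e2]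
    simp only [mul_assoc]
  have key := hSL.2.2 (Module.End ℤ V) (E ⧸ A.subgroupOf E) (fun c => Pc ρ E (c.out : E)) ?_
  · refine le_trans ?_ key
    rw [relIndex, index_eq_card, Nat.card_eq_fintype_card, ← Finset.card_univ]
    refine Finset.pow_card_le_prod _ _ _ fun c _ => ?_
    have h1 : ρ (c.out : E) ∈ Pc ρ E (c.out : E) := fun g _ => by
      rw [← map_mul, ← map_mul, ← map_mul, commutatorElement_def]
      congr 1
      group
    have h2 : ρ (c.out : E) ≠ 0 := fun h => by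
      have : ρ (((c.out : E) : H) * ((c.out : E) : H)⁻¹) = 0 := by rw [map_mul, h, zero_mul]
      rw [mul_inv_cancel, map_one] at this
      exact one_ne_zero this
    have : Nontrivial (Pc ρ E (c.out : E)) :=
      ⟨⟨⟨_, h1⟩, 0, fun h => h2 (congrArg Subtype.val h)⟩⟩
    exact Finite.one_lt_card
  intro i j hij
  have hg : ∃ g ∈ E, ⁅g, ((j.out : E) : H)⁆ ≠ ⁅g, ((i.out : E) : H)⁆ := by
    by_contra hcon
    push Not at hcon
    apply hij
    rw [← QuotientGroup.out_eq' i, ← QuotientGroup.out_eq' j]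
    refine QuotientGroup.eq.2 (mem_subgroupOf.2 (hY ⟨hEC (SetLike.coe_mem _), ?_⟩))
    refine mem_centralizer_iff.2 fun g hg => ?_
    have h := hcon g⁻¹ (inv_mem hg)
    rw [commutatorElement_def, commutatorElement_def] at h
    rw [Subgroup.coe_mul, Subgroup.coe_inv]
    generalize ((j.out : E) : H) = y at h
    generalize ((i.out : E) : H) = x at h
    calc g * (x⁻¹ * y) = x⁻¹ * g * (g⁻¹ * x * g⁻¹⁻¹ * x⁻¹) * y := by group
      _ = x⁻¹ * g * (g⁻¹ * y * g⁻¹⁻¹ * y⁻¹) * y := by rw [h]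
      _ = x⁻¹ * y * g := by group
  obtain ⟨g, hg, hne⟩ := hg
  let φ : Module.End ℤ V →+ Module.End ℤ V :=
    { toFun := fun T => ρ g * T * ρ g⁻¹ - ρ ⁅g, ((i.out : E) : H)⁆ * T
      map_zero' := by simp
      map_add' := fun S T => by rw [mul_add, add_mul, mul_add]; abel }
  have hφ : ∀ x : E, ∀ T ∈ Pc ρ E x,
      φ T = ρ ⁅g, (x : H)⁆ * T - ρ ⁅g, ((i.out : E) : H)⁆ * T := by
    intro x T hT
    show ρ g * T * ρ g⁻¹ - _ = _
    rw [hT g hg, mul_assoc, ← map_mul, mul_inv_cancel, map_one, mul_one]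
  refine ⟨φ, fun k T hT => ?_, fun T hT => ?_, fun T hT h0 => ?_⟩
  · rw [hφ _ T hT]
    exact sub_mem (hmul _ (hcm g hg _) _ T hT) (hmul _ (hcm g hg _) _ T hT)
  · rw [hφ _ T hT, sub_self]
  · rw [hφ _ T hT, ← sub_mul] at h0
    refine LinearMap.ext fun v => sub_inj ρ hρ A hR (hcm g hg _) (hcm g hg _) hne ?_
    rw [← Module.End.mul_apply, h0]
    rfl

theorem rel_le (hGL : S_GL) (hNUM : S_NUM) [Finite H] (A E : Subgroup H) [A.Normal]
    [hE : E.Normal] (hc : IsCyclic A) (hAE : A ≤ E) (hEC : E ≤ centralizer (A : Set H))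
    (hY : centralizer (A : Set H) ⊓ centralizer (E : Set H) ≤ A) :
    A.relIndex (centralizer (A : Set H)) ≤
      (A.relIndex E * A.relIndex E) ^ Nat.log 2 (A.relIndex E) := by
  have key := hGL.1 E (centralizer (A : Set H))
    (fun x => (centralizer {(x : H)}).subgroupOf (centralizer (A : Set H))) (A.subgroupOf E)
    (A.relIndex E * A.relIndex E) (Nat.log 2 (A.relIndex E)) ?_ ?_ ?_
    (Nat.lt_pow_succ_log_self one_lt_two _)
  · refine le_trans (index_antitone fun g hg => ?_) key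
    refine mem_subgroupOf.2 (hY ⟨g.2, mem_centralizer_iff.2 fun x hx => ?_⟩)
    exact (mem_centralizer_singleton_iff.1 (mem_subgroupOf.1 (mem_iInf.1 hg ⟨x, hx⟩))).symm
  · intro x y g hg
    have h1 := mem_centralizer_singleton_iff.1 (mem_subgroupOf.1 hg.1)
    have h2 := mem_centralizer_singleton_iff.1 (mem_subgroupOf.1 hg.2)
    refine mem_subgroupOf.2 (mem_centralizer_singleton_iff.2 ?_)
    rw [Subgroup.coe_mul, ← mul_assoc, h1, mul_assoc, h2, mul_assoc]
  · intro x hx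
    refine eq_top_iff.2 fun g _ => mem_subgroupOf.2 (mem_centralizer_singleton_iff.2 ?_)
    exact (mem_centralizer_iff.1 g.2 _ (mem_subgroupOf.1 hx)).symm
  · intro x
    refine le_trans ?_ (hNUM.2 H E A ((x : H) ^ A.relIndex E) hAE hc
      fun a ha y hy => mem_centralizer_iff.1 (hEC hy) a ha)
    have hp : ∀ g : centralizer (A : Set H),
        ((g : H) * x * (g : H)⁻¹) ^ A.relIndex E = (x : H) ^ A.relIndex E := fun g => by
      rw [conj_pow, ← mem_centralizer_iff.1 g.2 _ (pow_relIndex_mem A x.2), mul_inv_cancel_right]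
    refine index_le_of _ (fun g => ⟨(g : H) * x * (g : H)⁻¹, hE.conj_mem _ x.2 _, hp g⟩)
      fun g h e => ?_
    have h1 : (g : H) * x * (g : H)⁻¹ = (h : H) * x * (h : H)⁻¹ := congrArg Subtype.val e
    refine mem_subgroupOf.2 (mem_centralizer_singleton_iff.2 ?_)
    rw [Subgroup.coe_mul, Subgroup.coe_inv]
    calc (g : H)⁻¹ * h * x = (g : H)⁻¹ * ((h : H) * x * (h : H)⁻¹) * h := by group
      _ = (g : H)⁻¹ * ((g : H) * x * (g : H)⁻¹) * h := by rw [h1]
      _ = x * ((g : H)⁻¹ * h) := by group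

end QpA

theorem p_QP (hGL : S_GL) (hSL : S_SL) (hNUM : S_NUM) :
    S_QP := by
  intro H V _ _ _ _ _ _ ρ hρ A hN hA hmax hR
  have hc := QpA.cyc ρ hρ A hA hR
  have h1 := QpA.card_le ρ hρ A hR
  have h2 := QpA.index_cent A hc
  obtain ⟨E, hE, hAE, hEC, hEE, hY⟩ := QpA.exists_E hSL A hA hmax
  have hV : 2 ≤ Nat.card V := Finite.one_lt_card
  have hL1 := Nat.lt_pow_succ_log_self one_lt_two (Nat.card V)
  have hL2 : 2 ^ Nat.log 2 (Nat.card V) ≤ Nat.card V := Nat.pow_log_le_self 2 (by omega)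
  have hL3 : 0 < Nat.log 2 (Nat.card V) := Nat.log_pos one_lt_two hV
  obtain ⟨hfin, hM⟩ := hGL.2 V _ hL1
  have h3 := QpA.two_pow_le hSL ρ hρ A E hR hAE hEC hEE hY
  have h4 := QpA.rel_le hGL hNUM A E hc hAE hEC hY
  have hn : A.relIndex E ≠ 0 := index_ne_zero_of_finite
  generalize Nat.log 2 (Nat.card V) = L at hL1 hL2 hL3 hM
  have h5 : A.relIndex E < L * (L + 1) := by
    refine (Nat.pow_lt_pow_iff_right one_lt_two).1 ((h3.trans hM).trans_lt ?_)
    rw [mul_comm, pow_mul]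
    exact Nat.pow_lt_pow_left hL1 hL3.ne'
  have h6 := hNUM.1 _ _ L h5 (Nat.pow_log_le_self 2 hn) (Nat.lt_pow_succ_log_self one_lt_two _)
  have h7 : A.relIndex (centralizer (A : Set H)) ≤ Nat.card V ^ 11 := by
    refine (h4.trans h6).trans ?_
    rw [mul_comm, pow_mul]
    exact Nat.pow_le_pow_left hL2 11
  have h8 : Nat.card H =
      A.relIndex (centralizer (A : Set H)) * (centralizer (A : Set H)).index * Nat.card A := by
    rw [relIndex_mul_index (hAE.trans hEC), index_mul_card]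
  have h9 : 16 ≤ Nat.card V ^ 4 := Nat.pow_le_pow_left hV 4
  calc 16 * Nat.card H ≤ Nat.card V ^ 4 * (Nat.card V ^ 11 * Nat.card V * Nat.card V) := by
        rw [h8]
        exact Nat.mul_le_mul h9 (Nat.mul_le_mul (Nat.mul_le_mul h7 (h2.trans h1)) h1)
    _ = Nat.card V ^ 17 := by ring

end Pool.Agent.P.MP_5e916a_al
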