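import Pool.Agent.P.MP_5e916a_al.A.Iface

/-! Step SIM of the codegree project. -/

namespace Pool.Agent.P.MP_5e916a_al

open Subgroup
open scoped commutatorElement

namespace SimA

variable {H V : Type} [Group H] [AddCommGroup V]

/-- The annihilator of a vector in a subring of endomorphisms. -/
def ann (R : Subring (Module.End ℤ V)) (v : V) : Set (Module.End ℤ V) := {r | r ∈ R ∧ r v = 0}

/-- The vectors killed by the annihilator of `v`. -/
def U (R : Subring (Module.End ℤ V)) (v : V) : Submodule ℤ V where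
  carrier := {w | ∀ r ∈ ann R v, r w = 0}
  add_mem' := fun {a b} ha hb r hr => by rw [map_add, ha r hr, hb r hr, add_zero]
  zero_mem' := fun r _ => map_zero r
  smul_mem' := fun c a ha r hr => by rw [map_smul, ha r hr, smul_zero]

lemma mem_U {R : Subring (Module.End ℤ V)} {v w : V} : w ∈ U R v ↔ ∀ r ∈ ann R v, r w = 0 :=
  Iff.rfl

/-- Nonzero vectors with a maximal annihilator. -/
def Mx (R : Subring (Module.End ℤ V)) (v : V) : Prop :=
  v ≠ 0 ∧ ∀ w, w ≠ 0 → ann R v ⊆ ann R w → ann R w ⊆ ann R v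

lemma Mx.sub {R : Subring (Module.End ℤ V)} {v w : V} (h : Mx R v) (hw : w ∈ U R v) (h0 : w ≠ 0) :
    ann R w ⊆ ann R v := h.2 w h0 fun r hr => ⟨hr.1, hw r hr⟩

lemma exists_mx [Finite V] [Nontrivial V] (R : Subring (Module.End ℤ V)) : ∃ v, Mx R v := by
  obtain ⟨v₀, hv₀⟩ := exists_ne (0 : V)
  obtain ⟨v, hv⟩ := (Set.toFinite {v : V | v ≠ 0}).exists_maximalFor (ann R) _ ⟨v₀, hv₀⟩
  exact ⟨v, hv.1, fun w hw h => hv.2 hw h⟩

lemma cancel (ρ : H →* Module.End ℤ V) (h : H) (v : V) : ρ h (ρ h⁻¹ v) = v := by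
  rw [← Module.End.mul_apply, ← map_mul, mul_inv_cancel, map_one, Module.End.one_apply]

lemma cancel' (ρ : H →* Module.End ℤ V) (h : H) (v : V) : ρ h⁻¹ (ρ h v) = v := by
  simp

lemma conj_mem (ρ : H →* Module.End ℤ V) (A : Subgroup H) (hA : A.Normal) (h : H)
    {r : Module.End ℤ V} (hr : r ∈ Subring.closure (ρ '' (A : Set H))) :
    ρ h * r * ρ h⁻¹ ∈ Subring.closure (ρ '' (A : Set H)) := by
  have h1 : ρ h⁻¹ * ρ h = 1 := by rw [← map_mul, inv_mul_cancel, map_one]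
  induction hr using Subring.closure_induction with
  | mem x hx =>
    obtain ⟨a, ha, rfl⟩ := hx
    exact Subring.subset_closure ⟨h * a * h⁻¹, hA.conj_mem a ha h, by simp only [map_mul]⟩
  | zero => simp
  | one => rw [mul_one, ← map_mul, mul_inv_cancel, map_one]; exact Subring.one_mem _
  | add x y _ _ hx hy => rw [mul_add, add_mul]; exact Subring.add_mem _ hx hy
  | neg x _ hx => rw [mul_neg, neg_mul]; exact Subring.neg_mem _ hx
  | mul x y _ _ hx hy =>
    have : ρ h * (x * y) * ρ h⁻¹ = ρ h * x * ρ h⁻¹ * (ρ h * y * ρ h⁻¹) := by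
      simp only [mul_assoc]
      rw [← mul_assoc (ρ h⁻¹), h1, one_mul]
    rw [this]
    exact Subring.mul_mem _ hx hy

lemma comm_mem {s : Set (Module.End ℤ V)} (hs : ∀ a ∈ s, ∀ b ∈ s, a * b = b * a)
    {x y : Module.End ℤ V} (hx : x ∈ Subring.closure s) (hy : y ∈ Subring.closure s) :
    x * y = y * x := by
  have h1 : Subring.closure s ≤ Subring.centralizer s :=
    Subring.closure_le.2 fun a ha b hb => hs b hb a ha
  have h2 : Subring.closure s ≤ Subring.centralizer (Subring.closure s : Set _) :=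
    Subring.closure_le.2 fun a ha b hb => (h1 hb a ha).symm
  exact h2 hy x hx

section
variable {ρ : H →* Module.End ℤ V} {R : Subring (Module.End ℤ V)}
  (hc : ∀ h, ∀ r ∈ R, ρ h * r * ρ h⁻¹ ∈ R)
include hc

lemma conj_ann (h : H) {v : V} {r : Module.End ℤ V} (hr : r ∈ ann R v) :
    ρ h * r * ρ h⁻¹ ∈ ann R (ρ h v) :=
  ⟨hc h r hr.1, by simp only [Module.End.mul_apply, cancel', hr.2, map_zero]⟩

lemma ann_mono (h : H) {v w : V} (hvw : ann R v ⊆ ann R w) : ann R (ρ h v) ⊆ ann R (ρ h w) := by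
  intro r hr
  have h1 := conj_ann hc h⁻¹ hr
  rw [cancel'] at h1
  have h2 := (hvw h1).2
  simp only [Module.End.mul_apply, inv_inv] at h2
  exact ⟨hr.1, by rw [← cancel ρ h (r (ρ h w)), h2, map_zero]⟩

lemma Mx.conj (h : H) {v : V} (hv : Mx R v) : Mx R (ρ h v) := by
  refine ⟨fun h0 => hv.1 (by rw [← cancel' ρ h v, h0, map_zero]), fun w hw hs => ?_⟩
  have h1 := ann_mono hc h⁻¹ hs
  rw [cancel'] at h1
  have h2 := ann_mono hc h (hv.2 _ (fun h0 => hw (by rw [← cancel ρ h w, h0, map_zero])) h1)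
  rwa [cancel] at h2

lemma map_U (h : H) (v : V) : (U R v).map (ρ h) = U R (ρ h v) := by
  have key : ∀ (g : H) (x y : V), y ∈ U R x → ρ g y ∈ U R (ρ g x) := fun g x y hy r hr =>
    (ann_mono hc g (v := x) (w := y) (fun s hs => ⟨hs.1, hy s hs⟩) hr).2
  refine le_antisymm ?_ fun w hw => ⟨ρ h⁻¹ w, ?_, cancel ρ h w⟩
  · rintro _ ⟨y, hy, rfl⟩
    exact key h v y hy
  · have := key h⁻¹ _ _ hw
    rwa [cancel'] at this

end

end SimA

open SimA in
theorem p_SIM (hGL : S_GL) (hSL : S_SL) (hQP : S_QP) (hIMP : S_IMP) :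
    S_SIM := by
  classical
  intro H V _ _ _ _ _ _ ρ hρ hs hPW
  obtain ⟨A, ⟨hAn, hAc⟩, hAm⟩ := (Set.toFinite
    {B : Subgroup H | B.Normal ∧ ∀ a ∈ B, ∀ b ∈ B, a * b = b * a}).exists_maximal
    ⟨⊥, inferInstance, fun a ha b hb => by rw [mem_bot.1 ha, mem_bot.1 hb]⟩
  set R := Subring.closure (ρ '' (A : Set H)) with hR
  have hc : ∀ h, ∀ r ∈ R, ρ h * r * ρ h⁻¹ ∈ R := fun h r hr => conj_mem ρ A hAn h hr
  have hcomm : ∀ x ∈ R, ∀ y ∈ R, x * y = y * x := fun x hx y hy => by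
    refine comm_mem ?_ hx hy
    rintro _ ⟨a, ha, rfl⟩ _ ⟨b, hb, rfl⟩
    rw [← map_mul, ← map_mul, hAc a ha b hb]
  by_cases htop : ∃ v, Mx R v ∧ U R v = ⊤
  · obtain ⟨v, hv, hU⟩ := htop
    refine hQP H V ρ hρ A hAn hAc (fun B hB hBc hAB => hAm ⟨hB, hBc⟩ hAB) fun r hr hr0 => ?_
    refine (injective_iff_map_eq_zero r).2 fun w hw => ?_
    by_contra h0
    have h1 : r ∈ ann R v := hv.sub (hU ▸ Submodule.mem_top) h0 ⟨hr, hw⟩
    exact hr0 (LinearMap.ext fun x => (mem_U.1 (hU ▸ Submodule.mem_top : x ∈ U R v)) r h1)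
  · have hfin : (U R '' {v | Mx R v}).Finite := (Set.toFinite _).image _
    have hmem : ∀ W, W ∈ hfin.toFinset ↔ ∃ v, Mx R v ∧ U R v = W := fun W => by
      simp only [Set.Finite.mem_toFinset, Set.mem_image, Set.mem_ofPred_eq]
    refine hIMP H V ρ hρ hs hPW hfin.toFinset ?_ (fun W hW => ?_) (fun h W hW => ?_) ?_
    · obtain ⟨v, hv⟩ := exists_mx R
      exact ⟨_, (hmem _).2 ⟨v, hv, rfl⟩⟩
    · obtain ⟨v, hv, rfl⟩ := (hmem W).1 hW
      refine ⟨fun h0 => hv.1 ?_, fun h1 => htop ⟨v, hv, h1⟩⟩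
      have : v ∈ U R v := fun r hr => hr.2
      rwa [h0, Submodule.mem_bot] at this
    · obtain ⟨v, hv, rfl⟩ := (hmem W).1 hW
      exact (hmem _).2 ⟨ρ h v, hv.conj hc h, (map_U hc h v).symm⟩
    · rw [← Finset.prod_coe_sort]
      refine hSL.2.2 V hfin.toFinset (fun W => W.1.toAddSubgroup) fun i j hij => ?_
      obtain ⟨v, hv, hi⟩ := (hmem _).1 i.2
      obtain ⟨w, hw, hj⟩ := (hmem _).1 j.2
      have hne : ¬ ann R v ⊆ ann R w := fun hsub => by
        have h2 : ann R v = ann R w := Set.Subset.antisymm hsub (hv.2 w hw.1 hsub)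
        refine hij (Subtype.ext ?_)
        rw [← hi, ← hj]
        ext x
        rw [mem_U, mem_U, h2]
      obtain ⟨r, hr, hr'⟩ := Set.not_subset.1 hne
      refine ⟨r.toAddMonoidHom, fun k x hx => ?_, fun x hx => ?_, fun x hx h0 => ?_⟩
      · obtain ⟨u, -, hk⟩ := (hmem _).1 k.2
        change x ∈ k.1 at hx
        change r x ∈ k.1
        rw [← hk] at hx ⊢
        intro s hs'
        rw [← Module.End.mul_apply, hcomm s hs'.1 r hr.1, Module.End.mul_apply, hx s hs', map_zero]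
      · change x ∈ i.1 at hx
        rw [← hi] at hx
        exact hx r hr
      · change x ∈ j.1 at hx
        rw [← hj] at hx
        by_contra hx0
        exact hr' (hw.sub hx hx0 ⟨hr.1, h0⟩)

end Pool.Agent.P.MP_5e916a_al
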