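import Pool.Agent.P.MP_5e916a_al.A.Iface

/-! Step SL of the codegree project. -/

namespace Pool.Agent.P.MP_5e916a_al

open Subgroup
open scoped commutatorElement

theorem p_SL :
    S_SL := by
  refine ⟨fun H _ _ Y A hY hA h => ?_, fun H _ X Y A hA h1 h2 h3 => ?_, fun M ι _ _ _ P h => ?_⟩
  · obtain ⟨n, hn⟩ := Group.IsSolvable.solvable (G := H)
    have key : ∀ (n i : ℕ) (Y : Subgroup H), Y.Normal → Y ≤ derivedSeries H i →
        derivedSeries H (i + n) = ⊥ → ¬ Y ≤ A →
        ∃ L : Subgroup H, L.Normal ∧ L ≤ Y ∧ ¬ L ≤ A ∧ ⁅L, L⁆ ≤ A := by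
      intro n
      induction n with
      | zero => exact fun i Y _ h1 h2 h3 => (h3 (h1.trans (h2.le.trans bot_le))).elim
      | succ n ih =>
        intro i Y h0 h1 h2 h3
        by_cases e : ⁅Y, Y⁆ ≤ A
        · exact ⟨Y, h0, le_rfl, h3, e⟩
        · obtain ⟨L, a, b, c⟩ := ih (i + 1) ⁅Y, Y⁆ inferInstance (commutator_mono h1 h1)
            (by rwa [add_assoc, add_comm 1]) e
          exact ⟨L, a, b.trans (commutator_le_left Y Y), c⟩
    exact key n 0 Y hY le_top (by rwa [zero_add]) h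
  · have e : ∀ X Z : Subgroup H, ⁅X, Z⁆ ≤ A ↔
        X.map (QuotientGroup.mk' A) ≤ centralizer (Z.map (QuotientGroup.mk' A)) := fun X Z => by
      rw [← commutator_eq_bot_iff_le_centralizer, ← map_commutator, Subgroup.map_eq_bot_iff,
        QuotientGroup.ker_mk']
    have key : ∀ X Y Z : Subgroup H, ⁅X, Z⁆ ≤ A → ⁅Y, Z⁆ ≤ A → ⁅X ⊔ Y, Z⁆ ≤ A := fun X Y Z a b => by
      rw [e] at a b ⊢
      rw [Subgroup.map_sup]
      exact sup_le a b
    have h4 := commutator_comm X Y ▸ h3
    exact key _ _ _ (commutator_comm _ X ▸ key _ _ _ h1 h4) (commutator_comm _ Y ▸ key _ _ _ h3 h2)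
  · classical
    have key : ∀ (s : Finset ι) (x : ι → M), (∀ i, x i ∈ P i) → ∑ i ∈ s, x i = 0 →
        ∀ i ∈ s, x i = 0 := by
      intro s
      induction s using Finset.induction_on with
      | empty => simp
      | insert a s ha ih =>
        intro x hx e
        rw [Finset.sum_insert ha] at e
        have h1 : ∀ j ∈ s, x j = 0 := fun j hj => by
          obtain ⟨φ, a1, a2, a3⟩ := h a j fun e => ha (e ▸ hj)
          refine a3 _ (hx j) (ih (fun i => φ (x i)) (fun i => a1 i _ (hx i)) ?_ j hj)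
          simpa [a2 _ (hx a)] using congrArg φ e
        rw [Finset.sum_eq_zero h1, add_zero] at e
        exact Finset.forall_mem_insert _ _ _ |>.2 ⟨e, h1⟩
    rw [← Nat.card_pi]
    refine Nat.card_le_card_of_injective (fun x => ∑ i, (x i : M)) fun x y e => funext fun i =>
      Subtype.ext (sub_eq_zero.1 (key _ (fun i => (x i : M) - y i)
        (fun i => sub_mem (x i).2 (y i).2) ?_ i (Finset.mem_univ i)))
    rw [Finset.sum_sub_distrib]
    exact sub_eq_zero.2 e

end Pool.Agent.P.MP_5e916a_al
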