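import Pool.Agent.P.MP_5e916a_al.A.Gl
import Pool.Agent.P.MP_5e916a_al.A.Sl
import Pool.Agent.P.MP_5e916a_al.A.Perm
import Pool.Agent.P.MP_5e916a_al.A.Num
import Pool.Agent.P.MP_5e916a_al.A.Qp
import Pool.Agent.P.MP_5e916a_al.A.Imp
import Pool.Agent.P.MP_5e916a_al.A.Sim
import Pool.Agent.P.MP_5e916a_al.A.Pwa
import Pool.Agent.P.MP_5e916a_al.A.Pwb
import Pool.Agent.P.MP_5e916a_al.A.Cd
import Pool.Agent.P.MP_5e916a_al.A.Cnt

namespace Pool.Agent.P.MP_5e916a_al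

theorem all_GL : S_GL := p_GL
theorem all_SL : S_SL := p_SL
theorem all_PERM : S_PERM := p_PERM all_GL all_SL
theorem all_NUM : S_NUM := p_NUM
theorem all_QP : S_QP := p_QP all_GL all_SL all_NUM
theorem all_IMP : S_IMP := p_IMP all_PERM
theorem all_SIM : S_SIM := p_SIM all_GL all_SL all_QP all_IMP
theorem all_PWA : S_PWA := p_PWA all_SIM
theorem all_PWB : S_PWB := p_PWB all_SL all_PWA
theorem all_CD : S_CD := p_CD
theorem all_CNT : S_CNT := p_CNT

end Pool.Agent.P.MP_5e916a_al
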