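import Pool.Agent.P.MP_b1ffdf_al.TI

/-!
Kernels, degrees and constituents of characters.
-/

namespace Pool.Agent.P.MP_5e916a_al

open Pool.Agent.P.MP_b1ffdf_al CategoryTheory Classical Finset

variable {G : Type} [Group G] [Fintype G]

/-- The kernel of a character. -/
def kr (f : G → ℂ) : Subgroup G where
  carrier := {g | ∀ h, f (g * h) = f h}
  one_mem' := by simp
  mul_mem' := fun {a b} ha hb h => by rw [mul_assoc, ha, hb]
  inv_mem' := fun {a} ha h => by rw [← ha (a⁻¹ * h), mul_inv_cancel_left]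

/-- The degree of a character. -/
def dg (f : G → ℂ) : ℝ := (f 1).re

/-- Class functions all of whose multiplicities are natural numbers. -/
def NatC (F : G → ℂ) : Prop := IsClass F ∧ ∀ ξ, IsIrr ξ → ∃ m : ℕ, ip F ξ = m

omit [Fintype G] in
theorem kr_one {f : G → ℂ} {g : G} (h : g ∈ kr f) : f g = f 1 := by
  simpa using h 1

omit [Fintype G] in
theorem kr_normal {f : G → ℂ} (hf : IsClass f) : (kr f).Normal :=
  ⟨fun a ha g h => by
    have h1 := hf (a * (g⁻¹ * h * g)) g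
    have h2 := hf (g⁻¹ * h * g) g
    rw [ha] at h1
    rw [← h2] at h1
    simpa [mul_assoc] using h1⟩

theorem re_nat_mul (m : ℕ) (z : ℂ) : ((m : ℂ) * z).re = m * z.re := by simp

theorem rho_one (V : FDRep ℂ G) {g : G} (h2 : ∀ j : ℕ, V.character (g ^ j) = V.character 1) :
    V.ρ g = 1 := by
  let := invertibleOfNonzero (card_ne (G := Subgroup.zpowers g))
  have h3 := Representation.card_inv_mul_sum_char_eq_finrank (V.ρ.comp (Subgroup.zpowers g).subtype)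
  have h4 : ∀ x : Subgroup.zpowers g,
      Representation.character (V.ρ.comp (Subgroup.zpowers g).subtype) x = V.character 1 := by
    rintro ⟨x, hx⟩
    obtain ⟨j, rfl⟩ := (mem_powers_iff_mem_zpowers.2 hx)
    exact h2 j
  simp only [h4, Finset.sum_const, card_univ, nsmul_eq_mul, ← Nat.card_eq_fintype_card,
    inv_mul_cancel_left₀ (card_ne (G := Subgroup.zpowers g)), V.char_one, Nat.cast_inj] at h3
  have h5 := Submodule.eq_top_of_finrank_eq h3.symm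
  exact LinearMap.ext fun v =>
    (Representation.mem_invariants _ v).1 (h5 ▸ Submodule.mem_top) ⟨g, Subgroup.mem_zpowers g⟩

theorem re_le {f : G → ℂ} (hf : IsChar f) (g : G) :
    (f g).re ≤ dg f ∧ ((f g).re = dg f → g ∈ kr f) := by
  have hn : 0 < Nat.card G := Nat.card_pos
  have hζ := Complex.isPrimitiveRoot_exp _ hn.ne'
  set ζ := Complex.exp (2 * Real.pi * Complex.I / (Nat.card G))
  obtain ⟨m, hm⟩ := hf.eigen hn hζ (pow_card_eq_one' (x := g))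
  have h0 := hm 0
  have h1 := hm 1
  simp only [pow_zero, mul_zero, mul_one, pow_one] at h0 h1
  have hz : ∀ i, ‖ζ ^ i‖ = 1 := fun i => by rw [norm_pow, hζ.norm'_eq_one hn.ne', one_pow]
  have hle : ∀ i ∈ range (Nat.card G), ((m i : ℂ) * ζ ^ i).re ≤ ((m i : ℂ)).re := fun i _ => by
    have := (Complex.re_le_norm (ζ ^ i)).trans (hz i).le
    rw [re_nat_mul, Complex.natCast_re]
    exact mul_le_of_le_one_right (Nat.cast_nonneg _) this
  rw [dg, h0, h1, Complex.re_sum, Complex.re_sum]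
  refine ⟨Finset.sum_le_sum hle, fun e => ?_⟩
  have h2 : ∀ j, f (g ^ j) = f 1 := fun j => by
    rw [hm, h0]
    refine Finset.sum_congr rfl fun i hi => ?_
    have h3 := (Finset.sum_eq_sum_iff_of_le hle).1 e i hi
    rw [re_nat_mul, Complex.natCast_re] at h3
    rcases Nat.eq_zero_or_pos (m i) with h4 | h4
    · simp [h4]
    · have h5 : (ζ ^ i).re = 1 := by
        have : (0 : ℝ) < m i := by exact_mod_cast h4
        exact mul_left_cancel₀ this.ne' (h3.trans (mul_one _).symm)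
      have h6 : ζ ^ i = 1 := by
        have h7 := Complex.sq_norm (ζ ^ i)
        rw [hz, Complex.normSq_apply, h5] at h7
        exact Complex.ext h5 (by simp only [Complex.one_im]; nlinarith)
      rw [pow_mul, h6, one_pow, mul_one]
  obtain ⟨V, rfl⟩ := hf
  intro h
  simp only [FDRep.character, map_mul, rho_one V h2, one_mul]

theorem mem_kr {f : G → ℂ} (hf : IsChar f) {g : G} : g ∈ kr f ↔ f g = f 1 :=
  ⟨kr_one, fun h => (re_le hf g).2 (by rw [h, dg])⟩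

theorem irr_dg {χ : G → ℂ} (h : IsIrr χ) : 1 ≤ dg χ ∧ χ 1 = dg χ := by
  obtain ⟨d, hd, e⟩ := h.one_ne_zero
  rw [dg, e, Complex.natCast_re]
  exact ⟨by exact_mod_cast hd, rfl⟩

theorem natC_char {f : G → ℂ} (hf : IsChar f) : NatC f :=
  ⟨hf.isClass, fun _ h => hf.ip_nat h.isChar⟩

theorem natC_ind (M : Subgroup G) {ψ : M → ℂ} (hψ : IsChar ψ) : NatC (ind M ψ) :=
  ⟨ind_class M ψ, fun ξ h => by
    rw [frob M ψ h.isChar.isClass]; exact hψ.ip_nat (h.isChar.comp M.subtype)⟩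

theorem isChar_one : IsChar (1 : G → ℂ) := by
  have e : (Representation.trivial ℂ G ℂ).character = 1 := by
    ext h; simp [Representation.character]
  exact e ▸ isChar_of_rep (Representation.trivial ℂ G ℂ)

theorem isIrr_one : IsIrr (1 : G → ℂ) :=
  isIrr_iff.2 ⟨isChar_one, by
    simp only [ip, Pi.one_apply, mul_one, Finset.sum_const, card_univ, nsmul_eq_mul,
      ← Nat.card_eq_fintype_card, inv_mul_cancel₀ (card_ne (G := G))]⟩

theorem NatC.expand {F : G → ℂ} (hF : NatC F) : ∃ m : (G → ℂ) → ℕ,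
    (∀ ξ, IsIrr ξ → ip F ξ = m ξ) ∧ ∀ g, F g = ∑ ξ ∈ irrs G, (m ξ : ℂ) * ξ g := by
  choose! m hm using hF.2
  refine ⟨m, hm, fun g => ?_⟩
  rw [congrFun (MP_b1ffdf_al.expand hF.1) g, Finset.sum_apply]
  exact Finset.sum_congr rfl fun ξ h => by rw [hm ξ (mem_irrs.1 h)]; rfl

theorem re_expand {F : G → ℂ} {m : (G → ℂ) → ℕ} (h : ∀ g, F g = ∑ ξ ∈ irrs G, (m ξ : ℂ) * ξ g)
    (g : G) : (F g).re = ∑ ξ ∈ irrs G, (m ξ : ℝ) * (ξ g).re := by
  rw [h, Complex.re_sum]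
  exact Finset.sum_congr rfl fun ξ _ => re_nat_mul _ _

theorem NatC.mul_le {F χ : G → ℂ} (hF : NatC F) (hχ : IsIrr χ) :
    (ip F χ).re * dg χ ≤ dg F := by
  obtain ⟨m, h1, h2⟩ := hF.expand
  rw [h1 χ hχ, Complex.natCast_re, dg, dg, re_expand h2]
  exact Finset.single_le_sum (f := fun ξ => (m ξ : ℝ) * (ξ 1).re) (fun ξ h =>
    mul_nonneg (Nat.cast_nonneg _) (zero_le_one.trans (irr_dg (mem_irrs.1 h)).1)) (mem_irrs.2 hχ)

theorem NatC.dg_le {F χ : G → ℂ} (hF : NatC F) (hχ : IsIrr χ) (h : ip F χ ≠ 0) : dg χ ≤ dg F := by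
  refine le_trans ?_ (hF.mul_le hχ)
  obtain ⟨m, hm⟩ := hF.2 χ hχ
  rw [hm] at h ⊢
  have h1 : (1 : ℝ) ≤ m := by exact_mod_cast Nat.pos_of_ne_zero fun e => h (by simp [e])
  exact le_mul_of_one_le_left (zero_le_one.trans (irr_dg hχ).1) h1

theorem NatC.mem_kr {F χ : G → ℂ} (hF : NatC F) (hχ : IsIrr χ) (h : ip F χ ≠ 0) {g : G}
    (hg : F g = F 1) : g ∈ kr χ := by
  obtain ⟨m, h1, h2⟩ := hF.expand
  have h3 := (Finset.sum_eq_sum_iff_of_le (s := irrs G) (f := fun ξ => (m ξ : ℝ) * (ξ g).re)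
    (g := fun ξ => (m ξ : ℝ) * (ξ 1).re) fun ξ hξ => mul_le_mul_of_nonneg_left
      (re_le (mem_irrs.1 hξ).isChar g).1 (Nat.cast_nonneg _)).1
    (by rw [← re_expand h2, ← re_expand h2, hg]) χ (mem_irrs.2 hχ)
  refine (re_le hχ.isChar g).2 (mul_left_cancel₀ ?_ h3)
  rw [h1 χ hχ] at h
  exact_mod_cast h

theorem exists_con {F : G → ℂ} (hF : IsClass F) (L : (G → ℂ) →ₗ[ℂ] ℂ) (h : L F ≠ 0) :
    ∃ η, IsIrr η ∧ ip F η ≠ 0 ∧ L η ≠ 0 := by
  rw [expand hF, map_sum] at h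
  obtain ⟨η, h1, h2⟩ := Finset.exists_ne_zero_of_sum_ne_zero h
  rw [map_smul, smul_eq_mul, mul_ne_zero_iff] at h2
  exact ⟨η, mem_irrs.1 h1, h2⟩

/-- `f ↦ ip (f * π) χ` -/
noncomputable def ipL (π χ : G → ℂ) : (G → ℂ) →ₗ[ℂ] ℂ where
  toFun f := ip (f * π) χ
  map_add' f g := by rw [add_mul, ip_add]
  map_smul' c f := by rw [smul_mul_assoc, ip_smul]; rfl

theorem ip_move (f h u : G → ℂ) : ip (f * h) u = ip (u * fun g => h g⁻¹) f := by
  rw [ip_comm (u * _), ip, ip]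
  simp only [Pi.mul_apply, inv_inv, mul_assoc, mul_comm (h _)]

theorem ind_one (M : Subgroup G) (ψ : M → ℂ) : ind M ψ 1 = M.index * ψ 1 := by
  have h : (Nat.card G : ℂ) = Nat.card M * M.index := by exact_mod_cast M.card_mul_index.symm
  simp only [ind, mul_one, mul_inv_cancel, one_mem, dite_true]
  change _ * ∑ _x : G, ψ 1 = _
  rw [Finset.sum_const, card_univ, nsmul_eq_mul, ← Nat.card_eq_fintype_card, h, mul_assoc,
    inv_mul_cancel_left₀ (card_ne (G := M))]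

theorem ind_eq_iff (H : Subgroup G) (x : G) :
    ind H 1 x = ind H 1 1 ↔ ∀ y, y * x * y⁻¹ ∈ H := by
  simp only [ind, mul_one, mul_inv_cancel, one_mem, Pi.one_apply, dite_eq_ite,
    mul_right_inj' (inv_ne_zero (card_ne (G := H))), Finset.sum_boole, Nat.cast_inj]
  rw [Finset.filter_true, Finset.card_filter_eq_iff]
  simp

theorem exists_irr (H : Subgroup G) {x : G} (hx : x ∉ H) : ∃ χ, IsIrr χ ∧ dg χ ≤ H.index ∧
    x ∉ kr χ ∧ ∀ K : Subgroup G, K.Normal → K ≤ H → K ≤ kr χ := by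
  have hF := natC_ind H isChar_one
  obtain ⟨χ, h1, h2, h3⟩ := exists_con hF.1
    (LinearMap.proj (R := ℂ) (φ := fun _ : G => ℂ) x - LinearMap.proj (φ := fun _ : G => ℂ) 1)
    (show ind H 1 x - ind H 1 1 ≠ 0 from
      sub_ne_zero.2 fun e => hx (by simpa using (ind_eq_iff H x).1 e 1))
  refine ⟨χ, h1, (hF.dg_le h1 h2).trans_eq ?_,
    fun e => h3 (show χ x - χ 1 = 0 from sub_eq_zero.2 (kr_one e)),
    fun K hK hKH k hk => hF.mem_kr h1 h2 ((ind_eq_iff H k).2 fun y => hKH (hK.conj_mem k hk y))⟩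
  rw [dg, ind_one]; simp

theorem dg_sq_le {χ : G → ℂ} (h : IsIrr χ) : dg χ ^ 2 ≤ (kr χ).index := by
  have h1 := (natC_ind (kr χ) isChar_one).mul_le h
  rw [frob _ _ h.isChar.isClass, dg, dg, ind_one] at h1
  have h2 : ip (1 : kr χ → ℂ) (χ ∘ (kr χ).subtype) = χ 1 := by
    have : ∀ g : kr χ, χ ((kr χ).subtype g⁻¹) = χ 1 := fun g => kr_one g⁻¹.2
    simp only [ip, Pi.one_apply, one_mul, Function.comp_apply, this, Finset.sum_const, card_univ,
      nsmul_eq_mul, ← Nat.card_eq_fintype_card, inv_mul_cancel_left₀ (card_ne (G := kr χ))]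
  rw [h2] at h1
  simpa [sq, dg] using h1

theorem exists_over (Z : Subgroup G) {θ : Z → ℂ} (hθ : IsIrr θ) :
    ∃ χ, IsIrr χ ∧ ip (χ ∘ Z.subtype) θ ≠ 0 := by
  obtain ⟨χ, h1, h2, -⟩ := exists_con (ind_class Z θ) (LinearMap.proj 1) (by
    change ind Z θ 1 ≠ 0
    rw [ind_one, (irr_dg hθ).2]
    exact mul_ne_zero (by exact_mod_cast Z.index_ne_zero_of_finite)
      (by exact_mod_cast (zero_lt_one.trans_le (irr_dg hθ).1).ne'))
  rw [frob Z θ h1.isChar.isClass, ip_comm] at h2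
  exact ⟨χ, h1, h2⟩

theorem dg_sub_le (Z : Subgroup G) {b : ℝ} (hb : ∀ χ : G → ℂ, IsIrr χ → dg χ ≤ b) {θ : Z → ℂ}
    (hθ : IsIrr θ) : dg θ ≤ b := by
  obtain ⟨χ, h1, h2⟩ := exists_over Z hθ
  exact ((natC_char (h1.isChar.comp Z.subtype)).dg_le hθ h2).trans (hb χ h1)

theorem clifford (Z : Subgroup G) [hZ : Z.Normal] {χ : G → ℂ} (hχ : IsIrr χ) {θ θ' : Z → ℂ}
    (hθ : IsIrr θ) (hθ' : IsIrr θ') (h : ip (χ ∘ Z.subtype) θ ≠ 0)
    (h' : ip (χ ∘ Z.subtype) θ' ≠ 0) : dg θ' = dg θ := by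
  obtain ⟨m, h1, h2⟩ := (natC_ind Z hθ.isChar).expand
  have h3 : ind Z θ ∘ Z.subtype = ∑ ξ ∈ irrs G, (m ξ : ℂ) • (ξ ∘ Z.subtype) := by
    ext z; simp [h2]
  have h4 : ip (ind Z θ ∘ Z.subtype) θ' ≠ 0 := by
    choose! k hk using fun ξ (hξ : IsIrr ξ) => (hξ.isChar.comp Z.subtype).ip_nat hθ'.isChar
    rw [h3, ip_sum, Finset.sum_congr rfl fun ξ hξ => by rw [ip_smul, hk ξ (mem_irrs.1 hξ)]]
    rw [ip_comm, ← frob Z θ hχ.isChar.isClass, h1 χ hχ] at h
    rw [hk χ hχ] at h'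
    norm_cast at h h' ⊢
    exact fun e => mul_ne_zero h h' (Finset.sum_eq_zero_iff.1 e χ (mem_irrs.2 hχ))
  have h5 : ind Z θ ∘ Z.subtype = (Nat.card Z : ℂ)⁻¹ • ∑ x : G, θ ∘ MulAut.conjNormal x := by
    ext z
    simp only [Function.comp_apply, ind, Pi.smul_apply, Finset.sum_apply, smul_eq_mul]
    refine congrArg _ (Finset.sum_congr rfl fun x _ => ?_)
    exact dif_pos (hZ.conj_mem _ z.2 x)
  rw [h5, ip_smul, ip_sum] at h4
  obtain ⟨x, -, h6⟩ := Finset.exists_ne_zero_of_sum_ne_zero (right_ne_zero_of_mul h4)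
  rw [(hθ.comp_equiv _).ip_eq hθ'] at h6
  have h7 : θ ∘ MulAut.conjNormal x = θ' := by by_contra e; exact h6 (if_neg e)
  rw [← h7, dg, dg, Function.comp_apply, map_one]

theorem irr_lift {T : Type} [Group T] [Fintype T] (φ : G →* T) (hφ : Function.Surjective φ)
    {ψ : T → ℂ} (hψ : IsIrr ψ) : IsIrr (ψ ∘ φ) := by
  rw [isIrr_iff] at hψ ⊢
  refine ⟨hψ.1.comp φ, ?_⟩
  have h1 : (Nat.card G : ℂ) = Nat.card φ.ker * Nat.card T := by
    rw [← φ.ker.card_mul_index, Subgroup.index_ker, MonoidHom.range_eq_top.2 hφ, Subgroup.card_top,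
      Nat.cast_mul]
  have h2 : ∀ t, (univ.filter fun g => φ g = t).card = Nat.card φ.ker := fun t => by
    rw [MonoidHom.card_fiber_eq_of_mem_range φ (hφ t) ⟨1, map_one φ⟩, Nat.card_eq_fintype_card,
      Fintype.card_subtype]
    simp only [MonoidHom.mem_ker]
  rw [← hψ.2, ip, ip, h1, ← Finset.sum_fiberwise univ φ]
  simp only [Function.comp_apply, map_inv]
  rw [Finset.sum_congr rfl fun t _ => Finset.sum_congr rfl fun g hg => by
    rw [(Finset.mem_filter.1 hg).2]]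
  simp only [Finset.sum_const, h2, nsmul_eq_mul, ← Finset.mul_sum]
  rw [mul_inv, mul_assoc, mul_left_comm _ (Nat.card φ.ker : ℂ),
    inv_mul_cancel_left₀ (card_ne (G := φ.ker))]

theorem parseval {F : G → ℂ} {m : (G → ℂ) → ℕ} (h1 : ∀ ξ, IsIrr ξ → ip F ξ = m ξ)
    (hF : IsClass F) : (ip F F).re = ∑ ξ ∈ irrs G, (m ξ : ℝ) ^ 2 := by
  conv_lhs => enter [1, 1]; rw [expand hF]
  rw [ip_sum, Complex.re_sum]
  refine Finset.sum_congr rfl fun ξ h => ?_
  rw [ip_smul, ip_comm ξ, h1 ξ (mem_irrs.1 h)]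
  simp [sq]

theorem NatC.dg_le_mul {F : G → ℂ} (hF : NatC F) {b : ℝ} (hb : ∀ χ : G → ℂ, IsIrr χ → dg χ ≤ b) :
    dg F ≤ b * (ip F F).re := by
  obtain ⟨m, h1, h2⟩ := hF.expand
  rw [parseval h1 hF.1, dg, re_expand h2, Finset.mul_sum]
  refine Finset.sum_le_sum fun ξ h => ?_
  have h3 := hb ξ (mem_irrs.1 h)
  have h4 := (irr_dg (mem_irrs.1 h)).1
  have h5 : (m ξ : ℝ) ≤ (m ξ : ℝ) ^ 2 := by exact_mod_cast Nat.le_self_pow two_ne_zero _
  calc (m ξ : ℝ) * (ξ 1).re ≤ (m ξ : ℝ) ^ 2 * b :=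
        mul_le_mul h5 h3 (zero_le_one.trans h4) (by positivity)
    _ = _ := mul_comm _ _

theorem NatC.mul_sq_le {F : G → ℂ} (hF : NatC F) {t : ℝ}
    (h : ∀ ξ, IsIrr ξ → ip F ξ ≠ 0 → dg ξ = t) : (ip F F).re * t ^ 2 ≤ dg F ^ 2 := by
  obtain ⟨m, h1, h2⟩ := hF.expand
  have h3 : dg F = (∑ ξ ∈ irrs G, (m ξ : ℝ)) * t := by
    rw [dg, re_expand h2, Finset.sum_mul]
    refine Finset.sum_congr rfl fun ξ hξ => ?_
    by_cases e : m ξ = 0
    · simp [e]
    · rw [← h ξ (mem_irrs.1 hξ) (by rw [h1 ξ (mem_irrs.1 hξ)]; exact_mod_cast e), dg]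
  rw [parseval h1 hF.1, h3, mul_pow]
  exact mul_le_mul_of_nonneg_right
    (Finset.sum_sq_le_sq_sum_of_nonneg fun _ _ => Nat.cast_nonneg _) (by positivity)

theorem scalar {φ : G → ℂ} (hφ : IsIrr φ) {z : G} (hz : ∀ h, z * h * z⁻¹ * h⁻¹ ∈ kr φ) :
    ∃ c : ℂ, ∀ g, φ (z * g) = c * φ g := by
  obtain ⟨V, hV, rfl⟩ := hφ
  obtain ⟨c, e⟩ := schur V hV (V.ρ z) fun h => by
    have h1 := rho_one V fun j => kr_one (pow_mem (hz h) j)
    rw [← map_mul, ← map_mul, ← one_mul (V.ρ (h * z)), ← h1, ← map_mul]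
    simp [mul_assoc]
  exact ⟨c, fun g => by simp [FDRep.character, e]⟩

end Pool.Agent.P.MP_5e916a_al
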