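import Pool.Agent.P.MP_5e916a_al.A.Key
import Pool.Agent.P.MP_5e916a_al.A.All

/-!
The bound in terms of the set of codegrees.
-/

namespace Pool.Agent.P.MP_5e916a_al

open Pool.Agent.P.MP_b1ffdf_al Classical

theorem cod_eq {G : Type} [Group G] [Fintype G] (V : FDRep ℂ G) :
    cod V.character = (Nat.card G : ℝ) / Nat.card {g : G // V.character g = V.character 1} /
      Module.finrank ℂ V := by
  have h1 : Nat.card {g : G // V.character g = V.character 1} = Nat.card (kr V.character) :=
    Nat.card_congr (Equiv.subtypeEquivRight fun g => (mem_kr ⟨V, rfl⟩).symm)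
  have h2 : (Nat.card (kr V.character) : ℝ) ≠ 0 := by exact_mod_cast Nat.card_pos.ne'
  rw [h1, ← (kr V.character).index_mul_card, Nat.cast_mul, mul_div_cancel_right₀ _ h2, cod, dg,
    V.char_one, Complex.natCast_re]

theorem final (G : Type) [Group G] [Finite G] [Group.IsSolvable G] {c : ℕ} (hc : 0 < c)
    (hB : Big G c) : derivedSeries G (132 * c * (Set.ncard {x : ℝ | ∃ V : FDRep ℂ G,
      CategoryTheory.Simple V ∧ x = (Nat.card G : ℝ) /
        Nat.card {g : G // V.character g = V.character 1} / Module.finrank ℂ V} - 1)) = ⊥ := by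
  have := Fintype.ofFinite G
  have e : {x : ℝ | ∃ V : FDRep ℂ G, CategoryTheory.Simple V ∧ x = (Nat.card G : ℝ) /
      Nat.card {g : G // V.character g = V.character 1} / Module.finrank ℂ V} =
      ((irrs G).image cod : Finset ℝ) := by
    ext x
    simp only [Set.mem_ofPred_eq, Finset.coe_image, Set.mem_image, Finset.mem_coe, mem_irrs]
    exact ⟨fun ⟨V, h, e⟩ => ⟨_, ⟨V, h, rfl⟩, (cod_eq V).trans e.symm⟩,
      fun ⟨_, ⟨V, h, rfl⟩, e⟩ => ⟨V, h, e.symm.trans (cod_eq V)⟩⟩
  rw [e, Set.ncard_coe_finset]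
  exact main all_CD all_CNT hc hB _ fun χ h => Finset.mem_image_of_mem _ (mem_irrs.2 h)

theorem big_solvable (G : Type) [Group G] [Group.IsSolvable G] : Big G 18 := fun T _ _ _ h =>
  have := Group.isSolvable_of_surjective h
  all_PWB T

theorem big_nilpotent (G : Type) [Group G] [Group.IsNilpotent G] : Big G 1 := fun T _ _ φ h =>
  have := Group.nilpotent_of_surjective φ h
  ⟨⊤, inferInstance, inferInstance, by simp⟩

end Pool.Agent.P.MP_5e916a_al
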