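import Pool.Agent.P.MP_5e916a_al.A.Iface

/-! Step GL of the codegree project. -/

namespace Pool.Agent.P.MP_5e916a_al

open Subgroup
open scoped commutatorElement

namespace GlA

theorem aux {E D : Type} [Group E] [Finite E] [Group D] [Finite D] (St : E → Subgroup D) (w : ℕ)
    (hm : ∀ x y, St x ⊓ St y ≤ St (x * y)) (hw : ∀ x, (St x).index ≤ w) (k : ℕ) :
    ∀ (B : Subgroup E) (D0 : Subgroup D), (∀ x ∈ B, D0 ≤ St x) → B.index < 2 ^ (k + 1) →
      (⨅ x, St x).relIndex D0 ≤ w ^ k := by
  have hw1 : 1 ≤ w := (Nat.pos_of_ne_zero index_ne_zero_of_finite).trans_le (hw 1)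
  induction k with
  | zero =>
    intro B D0 h1 h2
    have h3 : B.index ≠ 0 := index_ne_zero_of_finite
    have h4 : B = ⊤ := index_eq_one.1 (by omega)
    exact (relIndex_eq_one.2 (le_iInf fun x => h1 x (h4 ▸ mem_top x))).le
  | succ k ih =>
    intro B D0 h1 h2
    by_cases h : ∀ x, D0 ≤ St x
    · rw [relIndex_eq_one.2 (le_iInf h)]
      exact Nat.one_le_pow _ _ hw1
    obtain ⟨x, hx⟩ := not_forall.1 h
    let M : Submonoid E :=
      { carrier := {y | St x ⊓ D0 ≤ St y}
        mul_mem' := fun ha hb => (le_inf ha hb).trans (hm _ _)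
        one_mem' := inf_le_right.trans (h1 1 B.one_mem) }
    let B1 : Subgroup E :=
      { M with
        inv_mem' := fun {y} hy => by
          have h3 : y⁻¹ = y ^ (orderOf y - 1) := by
            rw [inv_eq_iff_mul_eq_one, ← pow_succ', Nat.sub_add_cancel (orderOf_pos y),
              pow_orderOf_eq_one]
          rw [h3]
          exact M.pow_mem hy _ }
    have hle : B ≤ B1 := fun y hy => inf_le_right.trans (h1 y hy)
    have e1 := relIndex_mul_index hle
    have e2 : B.relIndex B1 ≠ 1 := fun h3 =>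
      hx (h1 x (relIndex_eq_one.1 h3 (show x ∈ B1 from (inf_le_left : St x ⊓ D0 ≤ St x))))
    have e3 : B.relIndex B1 ≠ 0 := index_ne_zero_of_finite
    have e4 : 2 * B1.index ≤ B.index := e1 ▸ Nat.mul_le_mul_right _ (by omega)
    have e5 := ih B1 (St x ⊓ D0) (fun y hy => hy) (by rw [pow_succ] at h2; omega)
    have e6 : (St x).relIndex D0 ≤ w := by
      refine (relIndex_le_of_le_right le_top index_ne_zero_of_finite).trans ?_
      rw [relIndex_top_right]
      exact hw x
    have e7 := relIndex_inf_mul_relIndex (⨅ x, St x) (St x) D0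
    rw [inf_eq_left.2 (iInf_le St x)] at e7
    rw [← e7, pow_succ]
    exact Nat.mul_le_mul e5 e6

/-- Evaluation of endomorphisms. -/
def ev {V : Type} [AddCommGroup V] (v : V) :
    Multiplicative (Module.End ℤ V) →* Multiplicative V :=
  AddMonoidHom.toMultiplicative (LinearMap.applyₗ (R := ℤ) (M₂ := V) v).toAddMonoidHom

theorem mem_ev {V : Type} [AddCommGroup V] (v : V) (T : Multiplicative (Module.End ℤ V)) :
    T ∈ (ev v).ker ↔ T.toAdd v = 0 := Iff.rfl

end GlA

open GlA in
theorem p_GL :
    S_GL := by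
  refine ⟨fun E D _ _ _ _ St B w k hm hB hw hk => ?_, fun V _ _ k hk => ?_⟩
  · have := aux St w hm hw k B ⊤ (fun x hx => (hB x hx).ge) hk
    rwa [relIndex_top_right] at this
  · have hf : Finite (Module.End ℤ V) :=
      Finite.of_injective (fun T : Module.End ℤ V => (T : V → V)) DFunLike.coe_injective
    refine ⟨hf, ?_⟩
    have h := aux (E := Multiplicative V) (fun v => (ev v.toAdd).ker) (Nat.card V)
      (fun x y T hT => by
        rw [mem_ev, toAdd_mul, map_add, (mem_ev _ _).1 hT.1, (mem_ev _ _).1 hT.2, add_zero])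
      (fun x => by
        rw [index_ker]
        exact Nat.card_le_card_of_injective _ Subtype.val_injective) k ⊥ ⊤
      (fun x hx T _ => by rw [mem_bot.1 hx, mem_ev, toAdd_one, map_zero])
      (by rw [index_bot]; exact hk)
    have e : (⨅ v : Multiplicative V, (ev v.toAdd).ker) = ⊥ := by
      refine eq_bot_iff.2 fun T hT => mem_bot.2 ?_
      exact LinearMap.ext fun v => (mem_ev _ _).1 (mem_iInf.1 hT (Multiplicative.ofAdd v))
    rwa [e, relIndex_top_right, index_bot] at h

end Pool.Agent.P.MP_5e916a_al
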