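import Mathlib

/-!
Derived length and codegrees: the group theoretic statements.
-/

namespace Pool.Agent.P.MP_5e916a_al

open Subgroup
open scoped commutatorElement

/-- `v` is killed by every product of `k` operators `ρ u - 1` with `u ∈ U`. -/
def NM {H V : Type} [Group H] [AddCommGroup V] (ρ : H →* Module.End ℤ V) (U : Subgroup H) :
    ℕ → V → Prop
  | 0, v => v = 0
  | k + 1, v => ∀ u ∈ U, NM ρ U k (ρ u v - v)

/-- A normal subgroup of small index acts nilpotently on every module with fewer than `n`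
elements. -/
def PW (n : ℕ) : Prop := ∀ (H V : Type) [Group H] [Finite H] [Group.IsSolvable H] [AddCommGroup V]
  [Finite V] [Nontrivial V] (ρ : H →* Module.End ℤ V), Nat.card V < n →
  ∃ U : Subgroup H, U.Normal ∧ ρ.ker ≤ U ∧ (∃ k, ∀ v, NM ρ U k v) ∧
    16 * U.index ≤ Nat.card V ^ 17

-- deps:
/-- The doubling lemma, and the number of endomorphisms of a finite abelian group. -/
def S_GL : Prop :=
  (∀ (E D : Type) [Group E] [Finite E] [Group D] [Finite D] (St : E → Subgroup D)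
    (B : Subgroup E) (w k : ℕ), (∀ x y, St x ⊓ St y ≤ St (x * y)) → (∀ x ∈ B, St x = ⊤) →
    (∀ x, (St x).index ≤ w) → B.index < 2 ^ (k + 1) → (⨅ x, St x).index ≤ w ^ k) ∧
  ∀ (V : Type) [AddCommGroup V] [Finite V] (k : ℕ), Nat.card V < 2 ^ (k + 1) →
    Finite (Module.End ℤ V) ∧ Nat.card (Module.End ℤ V) ≤ Nat.card V ^ k

-- deps:
/-- Abelian normal sections of solvable groups, and independence of eigenspaces. -/
def S_SL : Prop :=
  (∀ (H : Type) [Group H] [Group.IsSolvable H] (Y A : Subgroup H), Y.Normal → A.Normal → ¬ Y ≤ A →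
    ∃ L : Subgroup H, L.Normal ∧ L ≤ Y ∧ ¬ L ≤ A ∧ ⁅L, L⁆ ≤ A) ∧
  (∀ (H : Type) [Group H] (X Y A : Subgroup H), A.Normal → ⁅X, X⁆ ≤ A → ⁅Y, Y⁆ ≤ A →
    ⁅X, Y⁆ ≤ A → ⁅X ⊔ Y, X ⊔ Y⁆ ≤ A) ∧
  ∀ (M ι : Type) [AddCommGroup M] [Finite M] [Fintype ι] (P : ι → AddSubgroup M),
    (∀ i j, i ≠ j → ∃ φ : M →+ M, (∀ k, ∀ x ∈ P k, φ x ∈ P k) ∧ (∀ x ∈ P i, φ x = 0) ∧
      ∀ x ∈ P j, φ x = 0 → x = 0) → ∏ i, Nat.card (P i) ≤ Nat.card M

-- deps: GL SL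
/-- Solvable permutation groups. -/
def S_PERM : Prop := ∀ (S Ω : Type) [Group S] [Finite S] [Group.IsSolvable S] [Finite Ω] [Nonempty Ω]
  (φ : S →* Equiv.Perm Ω), 16 * φ.ker.index ≤ 16 ^ Nat.card Ω

-- deps:
/-- Two numerical facts. -/
def S_NUM : Prop :=
  (∀ n k L : ℕ, n < L * (L + 1) → 2 ^ k ≤ n → n < 2 ^ (k + 1) → (n * n) ^ k ≤ 2 ^ (11 * L)) ∧
  ∀ (G : Type) [Group G] [Finite G] (E A : Subgroup G) (c : G), A ≤ E → IsCyclic A →
    (∀ a ∈ A, ∀ x ∈ E, a * x = x * a) →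
    Nat.card {y : G // y ∈ E ∧ y ^ A.relIndex E = c} ≤ A.relIndex E * A.relIndex E

-- deps: GL SL NUM
/-- The quasi-primitive case. -/
def S_QP : Prop := ∀ (H V : Type) [Group H] [Finite H] [Group.IsSolvable H] [AddCommGroup V]
  [Finite V] [Nontrivial V] (ρ : H →* Module.End ℤ V), Function.Injective ρ →
  ∀ A : Subgroup H, A.Normal → (∀ a ∈ A, ∀ b ∈ A, a * b = b * a) →
  (∀ B : Subgroup H, B.Normal → (∀ a ∈ B, ∀ b ∈ B, a * b = b * a) → A ≤ B → B ≤ A) →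
  (∀ r ∈ Subring.closure (ρ '' (A : Set H)), r ≠ 0 → Function.Injective r) →
  16 * Nat.card H ≤ Nat.card V ^ 17

-- deps: PERM
/-- The imprimitive case. -/
def S_IMP : Prop := ∀ (H V : Type) [Group H] [Finite H] [Group.IsSolvable H] [AddCommGroup V]
  [Finite V] (ρ : H →* Module.End ℤ V), Function.Injective ρ →
  (∀ W : Submodule ℤ V, (∀ h, ∀ w ∈ W, ρ h w ∈ W) → W = ⊥ ∨ W = ⊤) → PW (Nat.card V) →
  ∀ I : Finset (Submodule ℤ V), I.Nonempty → (∀ W ∈ I, W ≠ ⊥ ∧ W ≠ ⊤) →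
  (∀ h, ∀ W ∈ I, W.map (ρ h) ∈ I) → ∏ W ∈ I, Nat.card W ≤ Nat.card V →
  16 * Nat.card H ≤ Nat.card V ^ 17

-- deps: GL SL QP IMP
/-- Faithful simple modules. -/
def S_SIM : Prop := ∀ (H V : Type) [Group H] [Finite H] [Group.IsSolvable H] [AddCommGroup V]
  [Finite V] [Nontrivial V] (ρ : H →* Module.End ℤ V), Function.Injective ρ →
  (∀ W : Submodule ℤ V, (∀ h, ∀ w ∈ W, ρ h w ∈ W) → W = ⊥ ∨ W = ⊤) → PW (Nat.card V) →
  16 * Nat.card H ≤ Nat.card V ^ 17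

-- deps: SIM
/-- All modules. -/
def S_PWA : Prop := ∀ n, PW n

-- deps: SL PWA
/-- A solvable group has a large nilpotent normal subgroup. -/
def S_PWB : Prop := ∀ (T : Type) [Group T] [Finite T] [Group.IsSolvable T],
  ∃ F : Subgroup T, F.Normal ∧ Group.IsNilpotent F ∧ Nat.card T ≤ Nat.card F ^ 18

-- deps:
/-- The theorem of Chermak and Delgado, inside a normal subgroup. -/
def S_CD : Prop := ∀ (T : Type) [Group T] [Finite T] (F A : Subgroup T), F.Normal → A ≤ F →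
  (∀ a ∈ A, ∀ b ∈ A, a * b = b * a) → ∃ B : Subgroup T, B.Normal ∧ B ≤ F ∧
    (∀ a ∈ B, ∀ b ∈ B, a * b = b * a) ∧ B.relIndex F ≤ A.relIndex F ^ 2

-- deps:
/-- Counting the steps scale by scale. -/
def S_CNT : Prop := ∀ (c d : ℕ) (μ : ℕ → ℝ) (X : Finset ℝ), 0 < c → (∀ i < d, 2 ≤ μ i) →
  (∀ i j, i ≤ j → j < d → μ i ≤ μ j) → (∀ i < d, ∃ v ∈ X, 0 < v ∧ μ i ≤ v ^ 2 ∧ v ≤ μ i) →
  (∀ i r : ℕ, i + 2 < d →
    (X.filter fun v => 0 < v ∧ μ i ≤ v ^ 2 ∧ v ≤ μ (i + 2)).card ≤ r →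
    μ i ^ (c * (32 * r + 1)) * μ (i + 2) ≤ μ (i + 2) ^ (c * (32 * r + 1))) →
  d ≤ 132 * c * (X.filter fun v => 1 < v).card

end Pool.Agent.P.MP_5e916a_al
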