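import Pool.Agent.P.MP_5e916a_al.A.Isa

/-!
Interpolation of character degrees along the powers of a character of small degree.
-/

namespace Pool.Agent.P.MP_5e916a_al

open Pool.Agent.P.MP_b1ffdf_al Classical Finset

variable {G : Type} [Group G] [Fintype G]

/-- The codegree of a character. -/
noncomputable def cod (f : G → ℂ) : ℝ := (kr f).index / dg f

theorem isChar_pow {π : G → ℂ} (hπ : IsChar π) (k : ℕ) : IsChar (π ^ k) := by
  induction k with
  | zero => exact pow_zero π ▸ isChar_one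
  | succ k ih => exact pow_succ π k ▸ ih.mul hπ

theorem burnside {π χ : G → ℂ} (hπ : IsChar π) (hχ : IsIrr χ) (h : kr π ≤ kr χ) :
    ∃ k : ℕ, ip (π ^ k) χ ≠ 0 := by
  by_contra h0
  push Not at h0
  have h1 : ∀ s : Finset ℂ, ∀ k : ℕ, ip (π ^ k * fun g => ∏ a ∈ s, (π g - a)) χ = 0 := fun s => by
    induction s using Finset.induction_on with
    | empty => exact fun k => by simpa [← Pi.one_def] using h0 k
    | insert a s ha ih =>
      intro k
      have e : (π ^ k * fun g => ∏ a ∈ insert a s, (π g - a)) =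
          (π ^ (k + 1) * fun g => ∏ a ∈ s, (π g - a)) - a • (π ^ k * fun g => ∏ a ∈ s, (π g - a)) := by
        ext g
        simp only [Pi.mul_apply, Pi.pow_apply, Pi.sub_apply, Pi.smul_apply, smul_eq_mul,
          Finset.prod_insert ha]
        ring
      rw [e, ip_sub, ip_smul, ih, ih, mul_zero, sub_zero]
  have h2 := h1 ((univ.image π).erase (π 1)) 0
  set c := ∏ a ∈ (univ.image π).erase (π 1), (π 1 - a)
  have hc : c ≠ 0 := Finset.prod_ne_zero_iff.2 fun a ha =>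
    sub_ne_zero.2 (Finset.ne_of_mem_erase ha).symm
  rw [pow_zero, one_mul, ip, mul_eq_zero, or_iff_right (inv_ne_zero card_ne),
    Finset.sum_congr rfl (g := fun g => if g ∈ kr π then c * χ 1 else 0) fun g _ => ?_,
    ← sum_sub (kr π) fun _ => c * χ 1, Finset.sum_const, card_univ, nsmul_eq_mul,
    ← Nat.card_eq_fintype_card, (irr_dg hχ).2] at h2
  · exact mul_ne_zero card_ne (mul_ne_zero hc
      (by exact_mod_cast (zero_lt_one.trans_le (irr_dg hχ).1).ne')) h2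
  · split_ifs with hg
    · rw [kr_one hg, kr_one (h (inv_mem hg))]
    · rw [Finset.prod_eq_zero (i := π g) (Finset.mem_erase.2 ⟨fun e => hg ((mem_kr hπ).2 e),
        Finset.mem_image_of_mem _ (mem_univ g)⟩) (sub_self _), zero_mul]

theorem interp {π : G → ℂ} (hπ : IsChar π) {n : ℝ} (hn : dg π ≤ n) (h1 : 1 < n) (k : ℕ) :
    ∀ χ, IsIrr χ → ip (π ^ k) χ ≠ 0 → ∀ s : ℝ, 1 ≤ s → s ≤ dg χ →
    ∃ ψ, IsIrr ψ ∧ kr π ≤ kr ψ ∧ s ≤ dg ψ ∧ dg ψ < n * s := by
  induction k with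
  | zero =>
    intro χ hχ h s s1 s2
    rw [pow_zero, isIrr_one.ip_eq hχ] at h
    obtain rfl : 1 = χ := by by_contra e; exact h (if_neg e)
    have : dg (1 : G → ℂ) = 1 := rfl
    exact ⟨1, hχ, fun _ _ _ => rfl, s2, by nlinarith⟩
  | succ k ih =>
    intro χ hχ h s s1 s2
    obtain ⟨η, e1, e2, e3⟩ := exists_con (isChar_pow hπ k).isClass (ipL π χ)
      (show ip (π ^ k * π) χ ≠ 0 by rwa [← pow_succ])
    by_cases hs : s ≤ dg η
    · exact ih η e1 e2 s s1 hs
    refine ⟨χ, hχ, fun g hg => (natC_char (isChar_pow hπ _)).mem_kr hχ h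
      (by rw [Pi.pow_apply, Pi.pow_apply, kr_one hg]), s2, ?_⟩
    have h2 := (natC_char (e1.isChar.mul hπ)).dg_le hχ e3
    rw [dg_mul e1.isChar hπ] at h2
    have h3 := (irr_dg e1).1
    nlinarith

theorem twist {π ψ : G → ℂ} (hπ : IsIrr π) {N : Subgroup G} (hN : ¬ N ≤ kr π) (hψ : IsIrr ψ)
    (hk : kr π ≤ kr ψ) : ∃ U, IsIrr U ∧ kr π ≤ kr U ∧ ¬ N ≤ kr U ∧ dg U ≤ dg π * dg ψ ∧
      dg ψ ≤ dg π * dg U := by
  have p1 := (irr_dg hπ).1
  have p2 := (irr_dg hψ).1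
  by_cases h : N ≤ kr ψ
  swap
  · exact ⟨ψ, hψ, hk, h, by nlinarith, by nlinarith⟩
  have hc := hψ.isChar.mul hπ.isChar
  obtain ⟨U, h1, h2, -⟩ := exists_con hc.isClass (LinearMap.proj 1) (by
    change ψ 1 * π 1 ≠ 0
    rw [(irr_dg hπ).2, (irr_dg hψ).2]
    exact_mod_cast (by positivity : dg ψ * dg π ≠ 0))
  refine ⟨U, h1, fun g hg => (natC_char hc).mem_kr h1 h2 ?_, fun e => hN fun g hg => ?_, ?_, ?_⟩
  · rw [Pi.mul_apply, Pi.mul_apply, kr_one hg, kr_one (hk hg)]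
  · rw [mul_comm, ip_move] at h2
    refine (natC_char (h1.isChar.mul hψ.isChar.dual)).mem_kr hπ h2 ?_
    rw [Pi.mul_apply, Pi.mul_apply, kr_one (e hg), kr_one (h (inv_mem hg)), inv_one]
  · exact ((natC_char hc).dg_le h1 h2).trans_eq ((dg_mul hψ.isChar hπ.isChar).trans (mul_comm _ _))
  · rw [ip_move] at h2
    refine ((natC_char (h1.isChar.mul hπ.isChar.dual)).dg_le hψ h2).trans_eq ?_
    rw [dg_mul h1.isChar hπ.isChar.dual, mul_comm]
    simp [dg]

theorem cod_bounds {χ : G → ℂ} (h : IsIrr χ) : 0 < cod χ ∧ ((kr χ).index : ℝ) ≤ cod χ ^ 2 ∧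
    cod χ ≤ (kr χ).index ∧ cod χ * dg χ = (kr χ).index := by
  have h1 := (irr_dg h).1
  have h2 := dg_sq_le h
  have h3 : (0 : ℝ) < (kr χ).index := by nlinarith
  refine ⟨div_pos h3 (by linarith), ?_, div_le_self h3.le h1, div_mul_cancel₀ _ (by linarith)⟩
  rw [cod, div_pow, le_div_iff₀ (by positivity)]
  nlinarith

theorem few_deg {π : G → ℂ} (hπ : IsIrr π) {N : Subgroup G} (hN : ¬ N ≤ kr π) {μ n : ℝ}
    (hμ : ∀ K : Subgroup G, K.Normal → ¬ N ≤ K → μ ≤ K.index) (hq : (Nat.card G : ℝ) = μ * n)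
    (hn : dg π ≤ n) (h1 : 1 < n) (X : Finset ℝ) (hX : ∀ χ : G → ℂ, IsIrr χ → cod χ ∈ X) {r : ℕ}
    (hr : (X.filter fun v => 0 < v ∧ μ ≤ v ^ 2 ∧ v ≤ Nat.card G).card ≤ r) {χ : G → ℂ}
    (hχ : IsIrr χ) (hk : kr π ≤ kr χ) : dg χ ≤ n ^ (4 * r) := by
  by_contra hb
  obtain ⟨k, h2⟩ := burnside hπ.isChar hχ hk
  have h3 : ∀ j ≤ r, ∃ v ∈ X.filter fun v => 0 < v ∧ μ ≤ v ^ 2 ∧ v ≤ Nat.card G,
      v * n ^ (4 * j) ≤ Nat.card G * n ∧ Nat.card G * n < v * n ^ (4 * j + 4) := fun j hj => by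
    obtain ⟨ψ, a1, a2, a3, a4⟩ := interp hπ.isChar hn h1 k χ hχ h2 (n ^ (4 * j))
      (one_le_pow₀ h1.le) ((pow_le_pow_right₀ h1.le (by omega)).trans (not_le.1 hb).le)
    obtain ⟨U, b1, -, b3, b4, b5⟩ := twist hπ hN a1 a2
    obtain ⟨c1, c2, c3, c4⟩ := cod_bounds b1
    have c5 := hμ _ (kr_normal b1.isChar.isClass) b3
    have c6 : ((kr U).index : ℝ) ≤ Nat.card G := by
      exact_mod_cast Nat.le_of_dvd Nat.card_pos (kr U).index_dvd_card
    have c7 := (irr_dg b1).1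
    have c8 := (irr_dg a1).1
    have c0 : 0 < n := by linarith
    refine ⟨cod U, Finset.mem_filter.2 ⟨hX U b1, c1, c5.trans c2, c3.trans c6⟩, ?_, ?_⟩
    · calc cod U * n ^ (4 * j) ≤ cod U * (n * dg U) := by
            gcongr; exact a3.trans (b5.trans (by gcongr))
        _ = (kr U).index * n := by rw [← c4]; ring
        _ ≤ _ := by gcongr
    · calc Nat.card G * n = μ * n ^ 2 := by rw [hq]; ring
        _ ≤ cod U * dg U * n ^ 2 := by rw [c4]; gcongr
        _ ≤ cod U * (n * dg ψ) * n ^ 2 := by gcongr; exact b4.trans (by gcongr)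
        _ < cod U * (n * (n * n ^ (4 * j))) * n ^ 2 := by gcongr
        _ = _ := by ring
  choose! v v1 v2 v3 using h3
  have h4 : ∀ i j, i < j → j ≤ r → v j < v i := fun i j hij hj => by
    have h5 := (Finset.mem_filter.1 (v1 i (by omega))).2.1
    refine lt_of_mul_lt_mul_right (a := n ^ (4 * j)) ((v2 j hj).trans_lt
      ((v3 i (by omega)).trans_le ?_)) (by positivity)
    gcongr
    · exact h1.le
    · omega
  have h5 := Finset.card_le_card_of_injOn (s := range (r + 1)) v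
    (fun j hj => v1 j (Nat.lt_succ_iff.1 (Finset.mem_range.1 hj))) fun i hi j hj e => by
      have hi' := Nat.lt_succ_iff.1 (Finset.mem_range.1 hi)
      have hj' := Nat.lt_succ_iff.1 (Finset.mem_range.1 hj)
      rcases lt_trichotomy i j with h | h | h
      · exact absurd e (h4 i j h hj').ne'
      · exact h
      · exact absurd e (h4 j i h hi').ne
  rw [Finset.card_range] at h5
  omega

end Pool.Agent.P.MP_5e916a_al
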