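import Pool.Agent.P.MP_5e916a_al.A.Ch

/-!
A nilpotent group whose character degrees are at most `b` has an abelian subgroup of index at
most `b ^ 4` (Isaacs).
-/

namespace Pool.Agent.P.MP_5e916a_al

open Pool.Agent.P.MP_b1ffdf_al Classical Finset
open scoped commutatorElement

variable {G : Type} [Group G] [Fintype G]

/-- The elements that are central modulo `K`. -/
def cz (K : Subgroup G) [hK : K.Normal] : Subgroup G where
  carrier := {z | ∀ h, ⁅z, h⁆ ∈ K}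
  one_mem' := by simp
  mul_mem' := fun {a b} ha hb h => by
    rw [show ⁅a * b, h⁆ = a * ⁅b, h⁆ * a⁻¹ * ⁅a, h⁆ by group]
    exact mul_mem (hK.conj_mem _ (hb h) a) (ha h)
  inv_mem' := fun {a} ha h => by
    rw [show ⁅a⁻¹, h⁆ = a⁻¹ * ⁅a, h⁆⁻¹ * a⁻¹⁻¹ by group]
    exact hK.conj_mem _ (inv_mem (ha h)) _

instance cz_normal (K : Subgroup G) [hK : K.Normal] : (cz K).Normal :=
  ⟨fun z hz g h => by
    rw [show ⁅g * z * g⁻¹, h⁆ = g * ⁅z, g⁻¹ * h * g⁆ * g⁻¹ by group]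
    exact hK.conj_mem _ (hz _) g⟩

omit [Fintype G] in
theorem dg_mul {f h : G → ℂ} (hf : IsChar f) (hh : IsChar h) : dg (f * h) = dg f * dg h := by
  obtain ⟨V, rfl⟩ := hf
  obtain ⟨W, rfl⟩ := hh
  simp [dg]

omit [Fintype G] in
theorem exists_comm [Group.IsNilpotent G] (hc : ¬ ∀ a b : G, a * b = b * a) :
    ∃ a b : G, ⁅a, b⁆ ∉ (⊤ : Subgroup G).lowerCentralSeries 2 := by
  by_contra h
  push Not at h
  have h1 : ∀ n, (⊤ : Subgroup G).lowerCentralSeries 1 ≤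
      (⊤ : Subgroup G).lowerCentralSeries (n + 1) := fun n => by
    induction n with
    | zero => exact le_rfl
    | succ n ih =>
      exact le_trans (Subgroup.commutator_le.2 fun a _ b _ => h a b)
        (Subgroup.commutator_mono ih le_rfl)
  obtain ⟨n, hn⟩ := Subgroup.nilpotent_iff_lowerCentralSeries.1 ‹Group.IsNilpotent G›
  have h2 := (h1 n).trans (Subgroup.lowerCentralSeries_antitone _ (Nat.le_succ n))
  rw [hn] at h2
  exact hc fun a b => commutatorElement_eq_one_iff_mul_comm.1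
    (h2 (Subgroup.commutator_mem_commutator (Subgroup.mem_top a) (Subgroup.mem_top b)))

theorem isa_step [Group.IsNilpotent G] (hc : ¬ ∀ a b : G, a * b = b * a) {b : ℝ}
    (hb : ∀ χ : G → ℂ, IsIrr χ → dg χ ≤ b) : ∃ Z : Subgroup G, Z ≠ ⊤ ∧ ∃ f : ℝ, 1 ≤ f ∧
      (Z.index : ℝ) = f ^ 2 ∧ ∀ θ : Z → ℂ, IsIrr θ → dg θ ^ 2 * f ≤ b ^ 2 := by
  obtain ⟨x, y, hxy⟩ := exists_comm hc
  obtain ⟨φ, hφ, -, h1, h2⟩ := exists_irr _ hxy
  have h3 := h2 _ inferInstance le_rfl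
  have := kr_normal hφ.isChar.isClass
  obtain ⟨f1, f2⟩ := irr_dg hφ
  have on : ∀ z ∈ cz (kr φ), φ z * φ z⁻¹ = dg φ ^ 2 := fun z hz => by
    obtain ⟨c, e⟩ := scalar hφ hz
    have e1 := e 1
    have e2 := e z⁻¹
    rw [mul_one] at e1
    rw [mul_inv_cancel] at e2
    rw [e1, mul_right_comm, ← e2, f2, sq]
  have off : ∀ g ∉ cz (kr φ), φ g = 0 := fun g hg => by
    obtain ⟨h, hh⟩ := not_forall.1 hg
    obtain ⟨c, e⟩ := scalar hφ (z := ⁅h, g⁆) fun k => h3 (Subgroup.commutator_mem_commutator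
      (Subgroup.commutator_mem_commutator (Subgroup.mem_top h) (Subgroup.mem_top g))
      (Subgroup.mem_top k))
    have e1 := e g
    rw [show ⁅h, g⁆ * g = h * g * h⁻¹ by group, hφ.isChar.isClass] at e1
    by_contra h0
    have hc1 : c = 1 := mul_right_cancel₀ h0 (e1.symm.trans (one_mul _).symm)
    refine hh ?_
    rw [← commutatorElement_inv]
    exact inv_mem fun k => by rw [e, hc1, one_mul]
  have key : ∀ u : G → ℂ, ∑ g, u g * (φ g * φ g⁻¹) = dg φ ^ 2 * ∑ z : cz (kr φ), u z := fun u => by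
    rw [sum_sub (cz (kr φ)) u, Finset.mul_sum]
    refine Finset.sum_congr rfl fun g _ => ?_
    split_ifs with hg
    · rw [on g hg, mul_comm]
    · rw [off g hg, zero_mul, mul_zero, mul_zero]
  have hG : (Nat.card G : ℂ) = Nat.card (cz (kr φ)) * (cz (kr φ)).index := by
    exact_mod_cast (cz (kr φ)).card_mul_index.symm
  have hi : ((cz (kr φ)).index : ℂ) = dg φ ^ 2 := by
    have h4 := (isIrr_iff.1 hφ).2
    have h5 := key 1
    simp only [Pi.one_apply, one_mul, Finset.sum_const, card_univ, nsmul_eq_mul, mul_one,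
      ← Nat.card_eq_fintype_card] at h5
    rw [ip, h5, inv_mul_eq_one₀ card_ne, hG, mul_comm] at h4
    exact mul_right_cancel₀ card_ne h4
  refine ⟨cz (kr φ), fun e => h1 ((e.ge (Subgroup.mem_top x) : x ∈ cz (kr φ)) y), dg φ, f1,
    by exact_mod_cast hi, fun θ hθ => ?_⟩
  obtain ⟨χ, hχ, h4⟩ := exists_over _ hθ
  have h5 : ip (χ * φ) (χ * φ) = ip (χ ∘ (cz (kr φ)).subtype) (χ ∘ (cz (kr φ)).subtype) := by
    have h6 := key fun g => χ g * χ g⁻¹
    have h7 : (dg φ : ℂ) ^ 2 ≠ 0 := by exact_mod_cast (by positivity : dg φ ^ 2 ≠ 0)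
    rw [ip, ip, Finset.sum_congr rfl fun g _ => show (χ * φ) g * (χ * φ) g⁻¹ =
      χ g * χ g⁻¹ * (φ g * φ g⁻¹) from mul_mul_mul_comm _ _ _ _, h6, hG, hi, mul_inv, mul_assoc,
      inv_mul_cancel_left₀ h7]
    rfl
  have h6 := (natC_char (hχ.isChar.mul hφ.isChar)).dg_le_mul hb
  have h7 := (natC_char (hχ.isChar.comp (cz (kr φ)).subtype)).mul_sq_le (t := dg θ)
    fun ξ hξ h => clifford _ hχ hθ hξ h4 h
  rw [h5, dg_mul hχ.isChar hφ.isChar] at h6
  change _ ≤ dg χ ^ 2 at h7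
  have h8 := (irr_dg hχ).1
  have h9 := hb χ hχ
  refine le_of_mul_le_mul_left (a := dg χ) ?_ (by positivity)
  calc dg χ * (dg θ ^ 2 * dg φ) = dg χ * dg φ * dg θ ^ 2 := by ring
    _ ≤ b * _ * dg θ ^ 2 := mul_le_mul_of_nonneg_right h6 (by positivity)
    _ ≤ b * dg χ ^ 2 := by rw [mul_assoc]; exact mul_le_mul_of_nonneg_left h7 (by linarith)
    _ = dg χ * (b * dg χ) := by ring
    _ ≤ _ := by rw [sq]; gcongr; linarith

theorem isa (n : ℕ) : ∀ (G : Type) [Group G] [Fintype G] [Group.IsNilpotent G], Nat.card G = n →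
    ∀ b : ℝ, (∀ χ : G → ℂ, IsIrr χ → dg χ ≤ b) →
    ∃ A : Subgroup G, (∀ a ∈ A, ∀ c ∈ A, a * c = c * a) ∧ (A.index : ℝ) ≤ b ^ 4 := by
  induction n using Nat.strong_induction_on with
  | _ n ih =>
  intro G _ _ _ hn b hb
  have h1 : 1 ≤ b := (irr_dg isIrr_one).1.trans (hb 1 isIrr_one)
  by_cases hc : ∀ a b : G, a * b = b * a
  · exact ⟨⊤, fun a _ c _ => hc a c, by simpa using one_le_pow₀ h1⟩
  obtain ⟨Z, hZ, f, f1, f2, f3⟩ := isa_step hc hb
  have hs : 0 < √f := Real.sqrt_pos.2 (by linarith)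
  have hs2 : √f ^ 2 = f := Real.sq_sqrt (by linarith)
  obtain ⟨A, a1, a2⟩ := ih (Nat.card Z) (hn ▸ lt_of_le_of_ne Z.card_le_card_group
    fun e => hZ (Z.eq_top_of_card_eq e)) Z rfl (b / √f) fun θ hθ => by
      rw [le_div_iff₀ hs]
      refine le_of_sq_le_sq ?_ (by linarith)
      rw [mul_pow, hs2]
      exact f3 θ hθ
  refine ⟨A.map Z.subtype, ?_, ?_⟩
  · rintro _ ⟨a, ha, rfl⟩ _ ⟨c, hc, rfl⟩
    rw [← map_mul, a1 a ha c hc, map_mul]
  · rw [Subgroup.index_map_subtype, Nat.cast_mul, f2]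
    rw [div_pow, show √f ^ 4 = f ^ 2 by rw [← hs2, Real.sqrt_sq hs.le]; ring,
      le_div_iff₀ (by positivity)] at a2
    exact a2

end Pool.Agent.P.MP_5e916a_al
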