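import Pool.Agent.P.MP_5e916a_al.A.Int
import Pool.Agent.P.MP_5e916a_al.A.Iface

/-!
Few codegrees force the smallest quotients that see the terms of the derived series to grow.
-/

namespace Pool.Agent.P.MP_5e916a_al

open Pool.Agent.P.MP_b1ffdf_al Classical Finset
open scoped commutatorElement

/-- Every quotient of `G` has a nilpotent normal subgroup of order at least its `c`-th root. -/
def Big (G : Type) [Group G] (c : ℕ) : Prop := ∀ (T : Type) [Group T] [Finite T] (φ : G →* T),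
  Function.Surjective φ →
  ∃ F : Subgroup T, F.Normal ∧ Group.IsNilpotent F ∧ Nat.card T ≤ Nat.card F ^ c

variable {G : Type} [Group G] [Fintype G]

omit [Fintype G] in
theorem kr_comp {T : Type} [Group T] (φ : G →* T) (hφ : Function.Surjective φ) (ψ : T → ℂ) :
    kr (ψ ∘ φ) = (kr ψ).comap φ := by
  ext g
  exact ⟨fun h t => by obtain ⟨x, rfl⟩ := hφ t; simpa using h x, fun h x => by simpa using h (φ x)⟩

omit [Fintype G] in
theorem cod_comp {T : Type} [Group T] (φ : G →* T) (hφ : Function.Surjective φ) (ψ : T → ℂ) :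
    cod (ψ ∘ φ) = cod ψ := by
  rw [cod, cod, kr_comp φ hφ, Subgroup.index_comap_of_surjective _ hφ, dg, dg, Function.comp_apply,
    map_one]

theorem abelian_normal (hCD : S_CD) {c : ℕ} {F : Subgroup G} (h1 : F.Normal)
    (h2 : Group.IsNilpotent F) (h3 : Nat.card G ≤ Nat.card F ^ c) {b : ℝ}
    (hb : ∀ χ : G → ℂ, IsIrr χ → dg χ ≤ b) : ∃ B : Subgroup G, B.Normal ∧
      (∀ x ∈ B, ∀ y ∈ B, x * y = y * x) ∧
      (B.index : ℝ) ^ c * Nat.card G ≤ b ^ (8 * c) * Nat.card G ^ c := by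
  obtain ⟨A, a1, a2⟩ := isa _ F rfl b fun θ hθ => dg_sub_le F hb hθ
  obtain ⟨B, b1, b2, b3, b4⟩ := hCD G F (A.map F.subtype) h1 (Subgroup.map_subtype_le A) (by
    rintro _ ⟨a, ha, rfl⟩ _ ⟨c, hc, rfl⟩
    rw [← map_mul, a1 a ha c hc, map_mul])
  rw [Subgroup.relIndex, Subgroup.relIndex, Subgroup.subgroupOf, Subgroup.subgroupOf,
    Subgroup.comap_map_eq_self_of_injective F.subtype_injective] at b4
  refine ⟨B, b1, b3, ?_⟩
  have h4 : (B.relIndex F : ℝ) ≤ b ^ 8 := by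
    have h5 : (B.relIndex F : ℝ) ≤ (A.index : ℝ) ^ 2 := by exact_mod_cast b4
    refine h5.trans ((pow_le_pow_left₀ (Nat.cast_nonneg _) a2 2).trans_eq (by ring))
  have h5 : (F.index : ℝ) ^ c * Nat.card G ≤ Nat.card G ^ c := by
    conv_rhs => rw [← F.index_mul_card, Nat.cast_mul, mul_pow]
    gcongr
    exact_mod_cast h3
  rw [← Subgroup.relIndex_mul_index b2, Nat.cast_mul, mul_pow, mul_assoc, pow_mul]
  gcongr

theorem index_cent (M : Subgroup G) [hM : M.Normal] {y : G} (hy : y ∈ M) :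
    (Subgroup.centralizer {y}).index ≤ Nat.card M := by
  refine Nat.card_le_card_of_injective (fun q : G ⧸ Subgroup.centralizer {y} =>
    (⟨q.out * y * q.out⁻¹, hM.conj_mem y hy _⟩ : M)) fun p q e => ?_
  rw [← p.out_eq, ← q.out_eq]
  refine QuotientGroup.eq.2 (Subgroup.mem_centralizer_singleton_iff.2 ?_)
  have h : p.out * y * p.out⁻¹ = q.out * y * q.out⁻¹ := congrArg Subtype.val e
  calc p.out⁻¹ * q.out * y = p.out⁻¹ * (q.out * y * q.out⁻¹) * q.out := by group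
    _ = _ := by rw [← h]; group

theorem key (hCD : S_CD) {c : ℕ} (hc : 0 < c) (hB : Big G c) {N : Subgroup G} [N.Normal]
    (h1 : ¬ N ≤ ⁅N, N⁆) (h2 : ⁅⁅N, N⁆, ⁅N, N⁆⁆ ≠ ⊥) {μ : ℝ} (h0 : 0 < μ)
    (hμ : ∀ K : Subgroup G, K.Normal → ¬ N ≤ K → μ ≤ K.index) (X : Finset ℝ)
    (hX : ∀ χ : G → ℂ, IsIrr χ → cod χ ∈ X) {r : ℕ}
    (hr : (X.filter fun v => 0 < v ∧ μ ≤ v ^ 2 ∧ v ≤ Nat.card G).card ≤ r) :
    μ ^ (c * (32 * r + 1)) * Nat.card G ≤ Nat.card G ^ (c * (32 * r + 1)) := by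
  obtain ⟨n, hq⟩ : ∃ n : ℝ, (Nat.card G : ℝ) = μ * n := ⟨_, (mul_div_cancel₀ _ h0.ne').symm⟩
  have h3 : (Nat.card (⁅N, N⁆ : Subgroup G) : ℝ) ≤ n := by
    refine le_of_mul_le_mul_left ?_ h0
    rw [← hq, ← (⁅N, N⁆ : Subgroup G).index_mul_card, Nat.cast_mul]
    exact mul_le_mul_of_nonneg_right (hμ _ inferInstance h1) (Nat.cast_nonneg _)
  have h4 : 1 < n := lt_of_lt_of_le (by
    exact_mod_cast (Subgroup.one_lt_card_iff_ne_bot _).2 fun e => h2 (by simp [e])) h3
  obtain ⟨x, hx, y, hy, h5⟩ : ∃ x ∈ ⁅N, N⁆, ∃ y ∈ ⁅N, N⁆, x ∉ Subgroup.centralizer {y} := by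
    by_contra h
    push Not at h
    exact h2 (le_bot_iff.1 (Subgroup.commutator_le.2 fun x hx y hy =>
      commutatorElement_eq_one_iff_mul_comm.2 (Subgroup.mem_centralizer_singleton_iff.1 (h x hx y hy))))
  obtain ⟨π, hπ, p1, p2, -⟩ := exists_irr _ h5
  have := kr_normal hπ.isChar.isClass
  have hs := QuotientGroup.mk'_surjective (kr π)
  have p3 : dg π ≤ n := p1.trans (le_trans (by exact_mod_cast index_cent _ hy) h3)
  have := Fintype.ofFinite (G ⧸ kr π)
  obtain ⟨F, f1, f2, f3⟩ := hB _ _ hs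
  obtain ⟨B, b1, b2, b3⟩ := abelian_normal hCD f1 f2 f3 (b := n ^ (4 * r)) fun ψ hψ => by
    have := few_deg hπ (N := N) (fun e => p2 (e (Subgroup.commutator_le_left N N hx))) hμ hq p3 h4
      X hX hr (irr_lift _ hs hψ) (by
        rw [kr_comp _ hs]
        exact (QuotientGroup.ker_mk' _).ge.trans (Subgroup.ker_le_comap _ _))
    rwa [dg, Function.comp_apply, map_one] at this
  have h6 := hμ (B.comap (QuotientGroup.mk' (kr π))) inferInstance fun e => p2 (by
    refine (Subgroup.commutator_le.2 fun u hu v hv => ?_ : ⁅N, N⁆ ≤ kr π) hx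
    rw [← QuotientGroup.ker_mk' (kr π), MonoidHom.mem_ker, map_commutatorElement]
    exact commutatorElement_eq_one_iff_mul_comm.2 (b2 _ (e hu) _ (e hv)))
  rw [Subgroup.index_comap_of_surjective _ hs] at h6
  obtain ⟨c, rfl⟩ : ∃ k, c = k + 1 := ⟨c - 1, by omega⟩
  have h7 : (0 : ℝ) < Nat.card (G ⧸ kr π) := by exact_mod_cast Nat.card_pos
  have h8 : (Nat.card (G ⧸ kr π) : ℝ) ≤ Nat.card G := by
    exact_mod_cast Nat.card_le_card_of_surjective _ hs
  rw [pow_succ (Nat.card (G ⧸ kr π) : ℝ), ← mul_assoc, mul_le_mul_iff_left₀ h7] at b3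
  have h9 : μ ^ (c + 1) ≤ (n ^ (4 * r)) ^ (8 * (c + 1)) * Nat.card G ^ c :=
    (pow_le_pow_left₀ h0.le h6 _).trans (b3.trans (by gcongr))
  calc μ ^ ((c + 1) * (32 * r + 1)) * Nat.card G
      = μ ^ (c + 1) * (μ ^ (32 * r * (c + 1)) * Nat.card G) := by ring
    _ ≤ (n ^ (4 * r)) ^ (8 * (c + 1)) * Nat.card G ^ c * (μ ^ (32 * r * (c + 1)) * Nat.card G) := by
      gcongr
    _ = (μ * n) ^ (32 * r * (c + 1)) * Nat.card G ^ (c + 1) := by ring
    _ = _ := by rw [← hq]; ring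

omit [Fintype G] in
theorem ds_lt [Group.IsSolvable G] {i : ℕ} (h : derivedSeries G i ≠ ⊥) :
    ¬ derivedSeries G i ≤ derivedSeries G (i + 1) := fun e => by
  have h1 : ∀ k, derivedSeries G i ≤ derivedSeries G (i + k) := fun k => by
    induction k with
    | zero => exact le_rfl
    | succ k ih => exact e.trans (Subgroup.commutator_mono ih ih)
  obtain ⟨n, hn⟩ := (Group.isSolvable_def G).1 ‹_›
  exact h (le_bot_iff.1 ((h1 n).trans (hn ▸ derivedSeries_antitone G (Nat.le_add_left n i))))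

theorem main (hCD : S_CD) (hCNT : S_CNT) [Group.IsSolvable G] {c : ℕ} (hc : 0 < c) (hB : Big G c)
    (X : Finset ℝ) (hX : ∀ χ : G → ℂ, IsIrr χ → cod χ ∈ X) :
    derivedSeries G (132 * c * (X.card - 1)) = ⊥ := by
  have hs := (Group.isSolvable_def G).1 ‹_›
  have h1 : ∀ i < Nat.find hs, ∃ K : Subgroup G, (K.Normal ∧ ¬ derivedSeries G i ≤ K) ∧
      ∀ L : Subgroup G, L.Normal ∧ ¬ derivedSeries G i ≤ L → K.index ≤ L.index := fun i hi =>
    exists_minimalFor_of_wellFoundedLT (fun K : Subgroup G => K.Normal ∧ ¬ derivedSeries G i ≤ K)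
      Subgroup.index ⟨⊥, inferInstance, fun e => Nat.find_min hs hi (le_bot_iff.1 e)⟩ |>.imp
      fun K h => ⟨h.prop, fun L hL => h.le hL⟩
  choose! K k1 k2 using h1
  have h2 := hCNT c (Nat.find hs) (fun i => (K i).index) X hc (fun i hi => ?_)
    (fun i j hij hj => ?_) (fun i hi => ?_) fun i r hi hr => ?_
  · have h3 : (X.filter fun v => 1 < v).card ≤ X.card - 1 := by
      have h4 : (1 : ℝ) ∈ X := by
        have e : kr (1 : G → ℂ) = ⊤ := top_unique fun _ _ _ => rfl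
        simpa [cod, e, dg] using hX 1 isIrr_one
      rw [← Finset.card_erase_of_mem h4]
      exact Finset.card_le_card fun v hv => Finset.mem_erase.2
        ⟨(Finset.mem_filter.1 hv).2.ne', (Finset.mem_filter.1 hv).1⟩
    exact le_bot_iff.1 (Nat.find_spec hs ▸ derivedSeries_antitone G
      (h2.trans (Nat.mul_le_mul_left _ h3)))
  · have h3 : (K i).index ≠ 1 := fun e => (k1 i hi).2 (Subgroup.index_eq_one.1 e ▸ le_top)
    have h4 := (K i).index_ne_zero_of_finite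
    exact_mod_cast (by omega : 2 ≤ (K i).index)
  · exact_mod_cast k2 i (by omega) _ ⟨(k1 j hj).1,
      fun e => (k1 j hj).2 ((derivedSeries_antitone G hij).trans e)⟩
  · obtain ⟨x, hx, h3⟩ := SetLike.not_le_iff_exists.1 (k1 i hi).2
    obtain ⟨χ, hχ, -, h4, h5⟩ := exists_irr _ h3
    obtain ⟨c1, c2, c3, -⟩ := cod_bounds hχ
    have h6 := k2 i hi _ ⟨kr_normal hχ.isChar.isClass, fun e => h4 (e hx)⟩
    have h7 := Subgroup.index_antitone (h5 _ (k1 i hi).1 le_rfl)
    exact ⟨_, hX χ hχ, c1, le_trans (by exact_mod_cast h6) c2, c3.trans (by exact_mod_cast h7)⟩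
  · have := (k1 _ hi).1
    have hq := QuotientGroup.mk'_surjective (K (i + 2))
    have := Fintype.ofFinite (G ⧸ K (i + 2))
    have h3 : derivedSeries (G ⧸ K (i + 2)) (i + 2) ≠ ⊥ := fun e => (k1 _ hi).2 (by
      rw [← map_derivedSeries_eq hq, Subgroup.map_eq_bot_iff, QuotientGroup.ker_mk'] at e
      exact e)
    refine key hCD hc (fun T _ _ φ hφ => hB T (φ.comp _) (hφ.comp hq))
      (N := derivedSeries (G ⧸ K (i + 2)) i) (ds_lt fun e => h3 (le_bot_iff.1
        (e ▸ derivedSeries_antitone _ (Nat.le_add_right i 2)))) h3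
      (by exact_mod_cast Nat.pos_of_ne_zero (K i).index_ne_zero_of_finite) (fun L hL e => ?_) X
      (fun ψ hψ => cod_comp _ hq ψ ▸ hX _ (irr_lift _ hq hψ)) hr
    rw [← map_derivedSeries_eq hq, Subgroup.map_le_iff_le_comap] at e
    rw [← Subgroup.index_comap_of_surjective _ hq]
    exact_mod_cast k2 i (by omega) _ ⟨inferInstance, e⟩

end Pool.Agent.P.MP_5e916a_al
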